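import Pool.Agent.MP_d13902_co_B.Defs

set_option autoImplicit false

namespace Pool.Agent.MP_d13902_co_B

open Finset

namespace A1

open scoped Classical in
/-- flipping one coordinate of the Boolean cube `Finset E` -/
private noncomputable def flip {E : Type*} (e : E) (x : Finset E) : Finset E := symmDiff x {e}

private theorem flip_flip {E : Type*} (e : E) (x : Finset E) : flip e (flip e x) = x := by
  classical
  simp [flip]

private theorem mem_flip {E : Type*} (e : E) (x : Finset E) (a : E) :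
    a ∈ flip e x ↔ (a ∈ x ∧ a ≠ e) ∨ (a = e ∧ a ∉ x) := by
  classical
  simp only [flip, Finset.mem_symmDiff, Finset.mem_singleton, ne_eq]

private theorem flip_comm {E : Type*} (e e' : E) (x : Finset E) :
    flip e (flip e' x) = flip e' (flip e x) := by
  classical
  simp only [flip]
  rw [symmDiff_right_comm]

private noncomputable def flipEquiv {E : Type*} (e : E) : Finset E ≃ Finset E where
  toFun := flip e
  invFun := flip e
  left_inv := flip_flip e
  right_inv := flip_flip e

private theorem sum_flip {E : Type*} [Fintype E] (e : E) (h : Finset E → ℝ) :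
    ∑ x, h (flip e x) = ∑ x, h x :=
  Equiv.sum_comp (flipEquiv e) h

private theorem exp_avg (a b lam : ℝ) (hab : |a - b| ≤ 1) :
    Real.exp (-(lam * a)) + Real.exp (-(lam * b)) ≤
      2 * (Real.exp (lam ^ 2 / 8) * Real.exp (-(lam * ((a + b) / 2)))) := by
  have h1 : Real.exp (-(lam * a)) =
      Real.exp (-(lam * ((a + b) / 2))) * Real.exp (-(lam * (a - b) / 2)) := by
    rw [← Real.exp_add]; congr 1; ring
  have h2 : Real.exp (-(lam * b)) =
      Real.exp (-(lam * ((a + b) / 2))) * Real.exp (lam * (a - b) / 2) := by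
    rw [← Real.exp_add]; congr 1; ring
  rw [h1, h2, ← mul_add]
  have h3 : Real.exp (-(lam * (a - b) / 2)) + Real.exp (lam * (a - b) / 2) =
      2 * Real.cosh (lam * (a - b) / 2) := by
    rw [Real.cosh_eq]; ring
  rw [h3]
  have h4 : Real.cosh (lam * (a - b) / 2) ≤ Real.exp (lam ^ 2 / 8) := by
    refine (Real.cosh_le_exp_half_sq _).trans (Real.exp_le_exp.mpr ?_)
    have h5 : (a - b) ^ 2 ≤ 1 := by
      rw [← sq_abs]
      exact pow_le_one₀ (abs_nonneg _) hab
    have h6 : 0 ≤ lam ^ 2 := sq_nonneg _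
    nlinarith [mul_le_mul_of_nonneg_left h5 h6]
  have h7 : 0 ≤ Real.exp (-(lam * ((a + b) / 2))) := (Real.exp_pos _).le
  nlinarith [mul_le_mul_of_nonneg_left h4 h7]

private theorem avg_step {E : Type*} [Fintype E] (f : Finset E → ℝ)
    (hf : ∀ (e : E) (x : Finset E), |f x - f (flip e x)| ≤ 1) (lam : ℝ) (S : Finset E) :
    ∃ g : Finset E → ℝ, (∀ e ∈ S, ∀ x, g (flip e x) = g x) ∧ (∑ x, g x = ∑ x, f x) ∧
      (∀ (e : E) (x : Finset E), |g x - g (flip e x)| ≤ 1) ∧
      ∑ x, Real.exp (-(lam * f x)) ≤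
        Real.exp (lam ^ 2 * S.card / 8) * ∑ x, Real.exp (-(lam * g x)) := by
  classical
  induction S using Finset.induction_on with
  | empty => exact ⟨f, by simp, rfl, hf, by simp⟩
  | insert i S hi ih =>
    obtain ⟨g, hg1, hg2, hg3, hg4⟩ := ih
    refine ⟨fun x => (g x + g (flip i x)) / 2, ?_, ?_, ?_, ?_⟩
    · intro e he x
      rcases Finset.mem_insert.mp he with rfl | he
      · simp only [flip_flip]; ring
      · simp only
        rw [flip_comm i e x, hg1 e he, hg1 e he]
    · rw [← hg2, ← Finset.sum_div, Finset.sum_add_distrib, sum_flip]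
      ring
    · intro e x
      have h1 := hg3 e x
      have h2 := hg3 e (flip i x)
      simp only
      rw [flip_comm i e x]
      rw [abs_le] at h1 h2 ⊢
      constructor <;> linarith [h1.1, h1.2, h2.1, h2.2]
    · refine hg4.trans ?_
      have h1 : ∑ x, Real.exp (-(lam * g x)) ≤
          Real.exp (lam ^ 2 / 8) * ∑ x, Real.exp (-(lam * ((g x + g (flip i x)) / 2))) := by
        have h2 : ∑ x, (Real.exp (-(lam * g x)) + Real.exp (-(lam * g (flip i x)))) ≤
            ∑ x, 2 * (Real.exp (lam ^ 2 / 8) *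
              Real.exp (-(lam * ((g x + g (flip i x)) / 2)))) :=
          Finset.sum_le_sum fun x _ => exp_avg _ _ _ (hg3 i x)
        rw [Finset.sum_add_distrib, sum_flip i (fun x => Real.exp (-(lam * g x))),
          ← Finset.mul_sum, ← Finset.mul_sum] at h2
        linarith
      rw [Finset.card_insert_of_notMem hi]
      have h3 : Real.exp (lam ^ 2 * ((S.card + 1 : ℕ) : ℝ) / 8) =
          Real.exp (lam ^ 2 * S.card / 8) * Real.exp (lam ^ 2 / 8) := by
        rw [← Real.exp_add]; congr 1; push_cast; ring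
      rw [h3, mul_assoc]
      exact mul_le_mul_of_nonneg_left h1 (Real.exp_pos _).le

private theorem mgf {E : Type*} [Fintype E] (f : Finset E → ℝ)
    (hf : ∀ (e : E) (x : Finset E), |f x - f (flip e x)| ≤ 1) (lam : ℝ) :
    ∑ x, Real.exp (-(lam * f x)) ≤ Real.exp (lam ^ 2 * Fintype.card E / 8) *
      (Fintype.card (Finset E) * Real.exp (-(lam * ((∑ x, f x) / Fintype.card (Finset E))))) := by
  classical
  obtain ⟨g, hg1, hg2, hg3, hg4⟩ := avg_step f hf lam univ
  have hconst : ∀ x, g x = g ∅ := by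
    intro x
    induction x using Finset.induction_on with
    | empty => rfl
    | insert a s ha ih =>
      rw [← ih, ← hg1 a (mem_univ a) s]
      congr 1
      ext b
      simp only [flip, Finset.mem_insert, Finset.mem_symmDiff, Finset.mem_singleton]
      constructor
      · rintro (rfl | hb)
        · exact Or.inr ⟨rfl, ha⟩
        · exact Or.inl ⟨hb, fun h => ha (h ▸ hb)⟩
      · rintro (⟨hb, _⟩ | ⟨hb, _⟩)
        · exact Or.inr hb
        · exact Or.inl hb
  have hcpos : (0 : ℝ) < Fintype.card (Finset E) := by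
    exact_mod_cast Fintype.card_pos
  have h1 : (∑ x, f x) / Fintype.card (Finset E) = g ∅ := by
    rw [← hg2, Finset.sum_congr rfl fun x _ => hconst x, Finset.sum_const, Finset.card_univ,
      nsmul_eq_mul]
    field_simp
  have h2 : ∑ x, Real.exp (-(lam * g x)) = Fintype.card (Finset E) * Real.exp (-(lam * g ∅)) := by
    rw [Finset.sum_congr rfl fun x _ => by rw [hconst x], Finset.sum_const, Finset.card_univ,
      nsmul_eq_mul]
  rw [h1, ← h2]
  simpa using hg4

private theorem mcdiarmid_cube {E : Type*} [Fintype E] (f : Finset E → ℝ)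
    (hf : ∀ (e : E) (x : Finset E), |f x - f (flip e x)| ≤ 1) (s lam : ℝ) (hlam : 0 ≤ lam) :
    (((univ.filter (fun x : Finset E => f x ≤ (∑ x, f x) / Fintype.card (Finset E) - s)).card
          : ℕ) : ℝ) ≤
      (Fintype.card (Finset E) : ℝ) * Real.exp (lam ^ 2 * Fintype.card E / 8 - lam * s) := by
  classical
  set A : ℝ := (∑ x, f x) / Fintype.card (Finset E) with hA
  have h1 : (((univ.filter (fun x : Finset E => f x ≤ A - s)).card : ℕ) : ℝ) ≤
      ∑ x, Real.exp (lam * (A - s)) * Real.exp (-(lam * f x)) := by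
    rw [Finset.card_filter]
    push_cast
    refine Finset.sum_le_sum fun x _ => ?_
    rw [← Real.exp_add]
    split_ifs with h
    · rw [← Real.exp_zero]
      refine Real.exp_le_exp.mpr ?_
      nlinarith [mul_nonneg hlam (sub_nonneg.mpr h)]
    · exact (Real.exp_pos _).le
  rw [← Finset.mul_sum] at h1
  refine h1.trans ((mul_le_mul_of_nonneg_left (mgf f hf lam) (Real.exp_pos _).le).trans
    (le_of_eq ?_))
  rw [← hA]
  have h3 : Real.exp (lam ^ 2 * Fintype.card E / 8 - lam * s) =
      Real.exp (lam * (A - s)) * (Real.exp (lam ^ 2 * Fintype.card E / 8) *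
        Real.exp (-(lam * A))) := by
    rw [← Real.exp_add, ← Real.exp_add]; congr 1; ring
  rw [h3]; ring

open scoped Classical in
private noncomputable def graphEquiv (n : ℕ) :
    SimpleGraph (Fin n) ≃ Finset {e : Sym2 (Fin n) // ¬ e.IsDiag} where
  toFun G := univ.filter (fun e => e.1 ∈ G.edgeSet)
  invFun x := SimpleGraph.fromEdgeSet {e | ∃ h : ¬ e.IsDiag, (⟨e, h⟩ : {e // ¬ Sym2.IsDiag e}) ∈ x}
  left_inv G := by
    apply SimpleGraph.edgeSet_injective
    ext e
    simp only [SimpleGraph.edgeSet_fromEdgeSet, Finset.mem_filter, Finset.mem_univ, true_and]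
    constructor
    · rintro ⟨⟨_, h⟩, _⟩
      exact h
    · intro h
      exact ⟨⟨G.not_isDiag_of_mem_edgeSet h, h⟩, G.not_isDiag_of_mem_edgeSet h⟩
  right_inv x := by
    ext ⟨e, he⟩
    simp only [SimpleGraph.edgeSet_fromEdgeSet, Finset.mem_filter, Finset.mem_univ, true_and]
    constructor
    · rintro ⟨⟨_, h⟩, _⟩
      exact h
    · intro h
      exact ⟨⟨he, h⟩, he⟩

end A1

open scoped Classical in
/-- **[A1]** Bounded differences inequality for a uniform random graph, i.e. for the uniform measure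
on the Boolean cube `{e : Sym2 (Fin n) // ¬ e.IsDiag} → Bool` (which has `C(n,2) ≤ n²/2`
coordinates).  Proof on `(Fin N → Bool)` (or by induction on a finset of coordinates):
`E exp(-λ (f - E f)) ≤ exp(λ² N / 8)` by induction on `N` splitting the last coordinate, using
`cosh x ≤ exp(x²/2)` (`Real.cosh_le_exp_half_sq`); then Markov with `λ = 4 s / N`:
`P(f ≤ E f - s) ≤ exp(-2 s²/N) ≤ exp(-4 s²/n²)`.  (`n ≤ 1`: `f` is constant.) -/
theorem mcdiarmid_graph {n : ℕ} (f : SimpleGraph (Fin n) → ℝ)
    (hf : ∀ (G G' : SimpleGraph (Fin n)) (e : Sym2 (Fin n)),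
      (∀ e', e' ≠ e → (e' ∈ G.edgeSet ↔ e' ∈ G'.edgeSet)) → |f G - f G'| ≤ 1)
    (s : ℝ) (hs : 0 ≤ s) :
    ((univ.filter (fun G : SimpleGraph (Fin n) =>
        f G ≤ (∑ G : SimpleGraph (Fin n), f G) / (Fintype.card (SimpleGraph (Fin n)) : ℝ) - s)).card
          : ℝ) ≤
      (Fintype.card (SimpleGraph (Fin n)) : ℝ) * Real.exp (-(4 * s ^ 2 / (n : ℝ) ^ 2)) := by
  have hcard : Fintype.card (SimpleGraph (Fin n)) =
      Fintype.card (Finset {e : Sym2 (Fin n) // ¬ e.IsDiag}) :=
    Fintype.card_congr (A1.graphEquiv n)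
  set φ := A1.graphEquiv n with hφ
  have hsum : ∑ G : SimpleGraph (Fin n), f G = ∑ x, f (φ.symm x) :=
    (Equiv.sum_comp φ.symm f).symm
  have key := A1.mcdiarmid_cube (fun x => f (φ.symm x)) (by
    intro e x
    apply hf _ _ e.1
    intro e' he'
    rw [hφ]
    simp only [A1.graphEquiv, Equiv.coe_fn_symm_mk, SimpleGraph.edgeSet_fromEdgeSet]
    constructor
    · rintro ⟨⟨h1, h2⟩, h3⟩
      exact ⟨⟨h1, (A1.mem_flip _ _ _).mpr
        (Or.inl ⟨h2, fun h => he' (congrArg Subtype.val h)⟩)⟩, h3⟩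
    · rintro ⟨⟨h1, h2⟩, h3⟩
      refine ⟨⟨h1, ?_⟩, h3⟩
      rcases (A1.mem_flip _ _ _).mp h2 with h2 | h2
      · exact h2.1
      · exact absurd (congrArg Subtype.val h2.1) he') s (8 * s / (n : ℝ) ^ 2)
    (by positivity)
  have hfilter : (univ.filter (fun G : SimpleGraph (Fin n) =>
        f G ≤ (∑ G : SimpleGraph (Fin n), f G) /
          (Fintype.card (SimpleGraph (Fin n)) : ℝ) - s)).card =
      (univ.filter (fun x => f (φ.symm x) ≤
        (∑ x, f (φ.symm x)) /
          (Fintype.card (Finset {e : Sym2 (Fin n) // ¬ e.IsDiag}) : ℝ) - s)).card := by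
    rw [hsum, hcard]
    refine Finset.card_bij (fun G _ => φ G) ?_ ?_ ?_
    · intro G hG
      simpa using hG
    · intro G _ G' _ h
      exact φ.injective h
    · intro x hx
      refine ⟨φ.symm x, ?_, by simp⟩
      simpa using hx
  rw [hfilter, hcard]
  refine key.trans (mul_le_mul_of_nonneg_left (Real.exp_le_exp.mpr ?_) (by positivity))
  have hE : (Fintype.card {e : Sym2 (Fin n) // ¬ e.IsDiag} : ℝ) ≤ (n : ℝ) ^ 2 / 2 := by
    rw [Sym2.card_subtype_not_diag, Fintype.card_fin, Nat.cast_choose_two]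
    nlinarith [Nat.cast_nonneg (α := ℝ) n]
  rcases Nat.eq_zero_or_pos n with hn | hn
  · subst hn
    simp
  · have hn' : (0 : ℝ) < (n : ℝ) := by exact_mod_cast hn
    have h1 : (8 * s / (n : ℝ) ^ 2) ^ 2 * (Fintype.card {e : Sym2 (Fin n) // ¬ e.IsDiag} : ℝ) / 8
        ≤ (8 * s / (n : ℝ) ^ 2) ^ 2 * ((n : ℝ) ^ 2 / 2) / 8 := by
      gcongr
    refine (sub_le_sub_right h1 _).trans (le_of_eq ?_)
    field_simp
    ring

end Pool.Agent.MP_d13902_co_B
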