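import Pool.Agent.MP_d13902_co_B.Defs

set_option autoImplicit false

namespace Pool.Agent.MP_d13902_co_B

open Finset

open scoped Classical in
/-- greedy Caro–Wei bound, used for `indep_family` -/
private theorem A2_caro_wei {β : Type*} [DecidableEq β] (conf : β → β → Prop)
    (hsymm : ∀ a b, conf a b → conf b a) (Y : Finset β) :
    ∃ Z ⊆ Y, (∀ a ∈ Z, ∀ b ∈ Z, a ≠ b → ¬ conf a b) ∧
      ∑ a ∈ Y, (1 : ℝ) / (((Y.filter (fun b => a ≠ b ∧ conf a b)).card : ℝ) + 1) ≤
        (Z.card : ℝ) := by
  induction Y using Finset.strongInduction with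
  | H Y ih =>
    rcases Y.eq_empty_or_nonempty with hY | hY
    · subst hY
      exact ⟨∅, subset_rfl, by simp, by simp⟩
    · obtain ⟨v, hv, hmin⟩ := Finset.exists_min_image Y
        (fun a => (Y.filter (fun b => a ≠ b ∧ conf a b)).card) hY
      have hsub : Y.filter (fun b => ¬ (b = v ∨ conf v b)) ⊂ Y := by
        refine Finset.ssubset_iff_subset_ne.2 ⟨Finset.filter_subset _ _, ?_⟩
        intro h
        have : v ∈ Y.filter (fun b => ¬ (b = v ∨ conf v b)) := by rw [h]; exact hv
        simp at this
      obtain ⟨Z, hZ, hind, hsum⟩ := ih _ hsub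
      have hvZ : v ∉ Z := by
        intro h
        have := hZ h
        simp at this
      refine ⟨insert v Z, ?_, ?_, ?_⟩
      · intro a ha
        rcases Finset.mem_insert.1 ha with rfl | ha
        · exact hv
        · exact (Finset.mem_filter.1 (hZ ha)).1
      · intro a ha b hb hab
        rcases Finset.mem_insert.1 ha with ha1 | ha1
        · rcases Finset.mem_insert.1 hb with hb1 | hb1
          · exact absurd (ha1.trans hb1.symm) hab
          · intro h
            rw [ha1] at h
            exact (Finset.mem_filter.1 (hZ hb1)).2 (Or.inr h)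
        · rcases Finset.mem_insert.1 hb with hb1 | hb1
          · intro h
            rw [hb1] at h
            exact (Finset.mem_filter.1 (hZ ha1)).2 (Or.inr (hsymm _ _ h))
          · exact hind a ha1 b hb1 hab
      · rw [Finset.card_insert_of_notMem hvZ]
        rw [← Finset.sum_filter_add_sum_filter_not Y (fun b => b = v ∨ conf v b)]
        have h1 : ∑ a ∈ Y.filter (fun b => b = v ∨ conf v b),
            (1 : ℝ) / (((Y.filter (fun b => a ≠ b ∧ conf a b)).card : ℝ) + 1) ≤ 1 := by
          have hle : ∀ a ∈ Y.filter (fun b => b = v ∨ conf v b),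
              (1 : ℝ) / (((Y.filter (fun b => a ≠ b ∧ conf a b)).card : ℝ) + 1) ≤
              (1 : ℝ) / (((Y.filter (fun b => v ≠ b ∧ conf v b)).card : ℝ) + 1) := by
            intro a ha
            have := hmin a (Finset.mem_filter.1 ha).1
            have h' : ((Y.filter (fun b => v ≠ b ∧ conf v b)).card : ℝ) ≤
              ((Y.filter (fun b => a ≠ b ∧ conf a b)).card : ℝ) := by exact_mod_cast this
            apply one_div_le_one_div_of_le
            · positivity
            · linarith
          refine (Finset.sum_le_sum hle).trans ?_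
          rw [Finset.sum_const, nsmul_eq_mul, mul_one_div]
          rw [div_le_one (by positivity)]
          have hc : (Y.filter (fun b => b = v ∨ conf v b)).card ≤
              (Y.filter (fun b => v ≠ b ∧ conf v b)).card + 1 := by
            have hs : Y.filter (fun b => b = v ∨ conf v b) ⊆
                insert v (Y.filter (fun b => v ≠ b ∧ conf v b)) := by
              intro b hb
              rw [Finset.mem_filter] at hb
              rw [Finset.mem_insert, Finset.mem_filter]
              by_cases h : b = v
              · exact Or.inl h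
              · right
                refine ⟨hb.1, fun h' => h h'.symm, ?_⟩
                rcases hb.2 with h' | h'
                · exact absurd h' h
                · exact h'
            exact (Finset.card_le_card hs).trans (Finset.card_insert_le _ _)
          exact_mod_cast hc
        have h2 : ∑ a ∈ Y.filter (fun b => ¬ (b = v ∨ conf v b)),
            (1 : ℝ) / (((Y.filter (fun b => a ≠ b ∧ conf a b)).card : ℝ) + 1) ≤
            ∑ a ∈ Y.filter (fun b => ¬ (b = v ∨ conf v b)),
            (1 : ℝ) / ((((Y.filter (fun b => ¬ (b = v ∨ conf v b))).filter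
              (fun b => a ≠ b ∧ conf a b)).card : ℝ) + 1) := by
          apply Finset.sum_le_sum
          intro a ha
          apply one_div_le_one_div_of_le
          · positivity
          · have hc : ((Y.filter (fun b => ¬ (b = v ∨ conf v b))).filter
              (fun b => a ≠ b ∧ conf a b)).card ≤
              (Y.filter (fun b => a ≠ b ∧ conf a b)).card := by
              apply Finset.card_le_card
              exact Finset.filter_subset_filter _ (Finset.filter_subset _ _)
            have hc' : (((Y.filter (fun b => ¬ (b = v ∨ conf v b))).filter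
              (fun b => a ≠ b ∧ conf a b)).card : ℝ) ≤
              ((Y.filter (fun b => a ≠ b ∧ conf a b)).card : ℝ) := by exact_mod_cast hc
            linarith
        push_cast
        linarith

open scoped Classical in
/-- **[A2]** Caro–Wei/Turán: a conflict-free subfamily of size `≥ |Y|²/(|Y|+P)` where `P` is the
number of ordered conflicting pairs, linearised by `Y²/Z ≥ 2λY - λ²Z`.  The same `Z` works for all
`λ`.  Proof: `α ≥ Σ_v 1/(deg v + 1)` by greedily removing the closed neighbourhood of a vertex of
minimum degree; Cauchy–Schwarz (or directly `1/(d+1) ≥ 2λ - λ²(d+1)`). -/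
theorem indep_family {β : Type*} [DecidableEq β] (Y : Finset β) (conf : β → β → Prop)
    (hsymm : ∀ a b, conf a b → conf b a) :
    ∃ Z ⊆ Y, (∀ a ∈ Z, ∀ b ∈ Z, a ≠ b → ¬ conf a b) ∧ ∀ lam : ℝ,
      2 * lam * (Y.card : ℝ) - lam ^ 2 * ((Y.card : ℝ) +
        (((Y ×ˢ Y).filter (fun p => p.1 ≠ p.2 ∧ conf p.1 p.2)).card : ℝ)) ≤ (Z.card : ℝ) := by
  obtain ⟨Z, hZ, hind, hsum⟩ := A2_caro_wei conf hsymm Y
  refine ⟨Z, hZ, hind, fun lam => le_trans ?_ hsum⟩
  have hP : (((Y ×ˢ Y).filter (fun p => p.1 ≠ p.2 ∧ conf p.1 p.2)).card : ℝ) =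
      ∑ a ∈ Y, ((Y.filter (fun b => a ≠ b ∧ conf a b)).card : ℝ) := by
    rw [Finset.card_filter, Finset.sum_product]
    push_cast
    apply Finset.sum_congr rfl
    intro a _
    rw [Finset.card_filter]
    push_cast
    rfl
  have hterm : ∀ a ∈ Y, 2 * lam - lam ^ 2 *
      (1 + ((Y.filter (fun b => a ≠ b ∧ conf a b)).card : ℝ)) ≤
      (1 : ℝ) / (((Y.filter (fun b => a ≠ b ∧ conf a b)).card : ℝ) + 1) := by
    intro a _
    have hpos : (0 : ℝ) < ((Y.filter (fun b => a ≠ b ∧ conf a b)).card : ℝ) + 1 := by positivity
    rw [le_div_iff₀ hpos]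
    set d : ℝ := ((Y.filter (fun b => a ≠ b ∧ conf a b)).card : ℝ)
    nlinarith [sq_nonneg (lam * (d + 1) - 1)]
  refine le_trans (le_of_eq ?_) (Finset.sum_le_sum hterm)
  rw [hP, Finset.sum_sub_distrib, ← Finset.mul_sum Y _ (lam ^ 2), Finset.sum_add_distrib]
  simp only [Finset.sum_const, nsmul_eq_mul]
  ring

end Pool.Agent.MP_d13902_co_B
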