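import Pool.Agent.MP_d13902_co_B.A1
import Pool.Agent.MP_d13902_co_B.A2

set_option autoImplicit false

namespace Pool.Agent.MP_d13902_co_B

open Finset

namespace A3

open scoped Classical in
/-- The edges inside `A`. -/
noncomputable def cl {n : ℕ} (A : Finset (Fin n)) : Finset (Sym2 (Fin n)) :=
  A.offDiag.image Sym2.mk.uncurry

theorem mem_cl {n : ℕ} {A : Finset (Fin n)} {a b : Fin n} :
    s(a, b) ∈ cl A ↔ a ≠ b ∧ a ∈ A ∧ b ∈ A := by
  classical
  unfold cl
  simp only [mem_image, mem_offDiag, Prod.exists, Function.uncurry_apply_pair]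
  constructor
  · rintro ⟨x, y, ⟨hx, hy, hxy⟩, h⟩
    rcases Sym2.eq_iff.1 h with ⟨rfl, rfl⟩ | ⟨rfl, rfl⟩
    · exact ⟨hxy, hx, hy⟩
    · exact ⟨hxy.symm, hy, hx⟩
  · rintro ⟨h, ha, hb⟩
    exact ⟨a, b, ⟨ha, hb, h⟩, rfl⟩

theorem cl_card {n : ℕ} (A : Finset (Fin n)) : (cl A).card = A.card.choose 2 := by
  classical
  unfold cl
  convert Sym2.card_image_offDiag A

theorem cl_inter {n : ℕ} [DecidableEq (Sym2 (Fin n))] (A B : Finset (Fin n)) :
    cl A ∩ cl B = cl (A ∩ B) := by
  ext e
  induction e using Sym2.ind with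
  | _ a b =>
    simp only [mem_inter, mem_cl]
    tauto

theorem cl_not_diag {n : ℕ} {A : Finset (Fin n)} : ∀ e ∈ cl A, ¬ e.IsDiag := by
  intro e
  induction e using Sym2.ind with
  | _ a b =>
    rw [mem_cl, Sym2.mk_isDiag_iff]
    tauto

theorem isClique_iff {n : ℕ} (G : SimpleGraph (Fin n)) (A : Finset (Fin n)) :
    G.IsClique A ↔ ∀ e ∈ cl A, e ∈ G.edgeSet := by
  constructor
  · intro h e
    induction e using Sym2.ind with
    | _ a b =>
      rw [mem_cl]
      rintro ⟨h1, h2, h3⟩
      exact h h2 h3 h1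
  · intro h a ha b hb hab
    exact h s(a, b) (mem_cl.2 ⟨hab, ha, hb⟩)

/-- Toggle the edge `e`. -/
def toggle {n : ℕ} (e : Sym2 (Fin n)) (G : SimpleGraph (Fin n)) : SimpleGraph (Fin n) :=
  SimpleGraph.fromEdgeSet {e' | ¬ (e' ∈ G.edgeSet ↔ e' = e)}

theorem mem_toggle {n : ℕ} {e : Sym2 (Fin n)} (he : ¬ e.IsDiag) {G : SimpleGraph (Fin n)}
    (e' : Sym2 (Fin n)) : e' ∈ (toggle e G).edgeSet ↔ ¬ (e' ∈ G.edgeSet ↔ e' = e) := by
  unfold toggle
  rw [SimpleGraph.edgeSet_fromEdgeSet]
  simp only [Set.mem_sdiff, Set.mem_ofPred_eq]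
  constructor
  · exact fun h => h.1
  · intro h
    refine ⟨h, fun hd => ?_⟩
    have hd' : e'.IsDiag := by simpa using hd
    have h1 : e' ∉ G.edgeSet := fun h2 => G.not_isDiag_of_mem_edgeSet h2 hd'
    have h2 : e' ≠ e := by rintro rfl; exact he hd'
    exact h (by tauto)

theorem toggle_toggle {n : ℕ} {e : Sym2 (Fin n)} (he : ¬ e.IsDiag) (G : SimpleGraph (Fin n)) :
    toggle e (toggle e G) = G := by
  apply SimpleGraph.edgeSet_injective
  ext e'
  rw [mem_toggle he, mem_toggle he]
  tauto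

open scoped Classical in
theorem card_contains {n : ℕ} (E : Finset (Sym2 (Fin n))) (hE : ∀ e ∈ E, ¬ e.IsDiag) :
    (univ.filter (fun G : SimpleGraph (Fin n) => ∀ e ∈ E, e ∈ G.edgeSet)).card * 2 ^ E.card =
      Fintype.card (SimpleGraph (Fin n)) := by
  induction E using Finset.induction_on with
  | empty => simp [Finset.card_univ]
  | insert e E he ih =>
    have ih' := ih (fun e' h => hE e' (mem_insert_of_mem h))
    have hed : ¬ e.IsDiag := hE e (mem_insert_self _ _)
    rw [← ih', card_insert_of_notMem he, pow_succ]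
    have h1 : (univ.filter (fun G : SimpleGraph (Fin n) => ∀ e ∈ E, e ∈ G.edgeSet)).card =
        (univ.filter (fun G : SimpleGraph (Fin n) => ∀ e' ∈ insert e E, e' ∈ G.edgeSet)).card +
        (univ.filter (fun G : SimpleGraph (Fin n) => (∀ e' ∈ E, e' ∈ G.edgeSet) ∧
          e ∉ G.edgeSet)).card := by
      rw [← card_union_of_disjoint]
      · congr 1
        ext G
        simp only [mem_filter, mem_univ, true_and, mem_union, mem_insert, forall_eq_or_imp]
        tauto
      · rw [disjoint_filter]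
        intro G _ h1 h2
        exact h2.2 (h1 e (mem_insert_self _ _))
    have h2 : (univ.filter (fun G : SimpleGraph (Fin n) =>
        ∀ e' ∈ insert e E, e' ∈ G.edgeSet)).card =
        (univ.filter (fun G : SimpleGraph (Fin n) => (∀ e' ∈ E, e' ∈ G.edgeSet) ∧
          e ∉ G.edgeSet)).card := by
      refine Finset.card_nbij' (toggle e) (toggle e) ?_ ?_ ?_ ?_
      · intro G hG
        simp only [coe_filter, mem_univ, true_and, Set.mem_ofPred_eq, mem_insert,
          forall_eq_or_imp] at hG ⊢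
        refine ⟨fun e' he' => ?_, ?_⟩
        · rw [mem_toggle hed]
          have h3 : e' ≠ e := by rintro rfl; exact he he'
          have := hG.2 e' he'
          tauto
        · rw [mem_toggle hed]
          have := hG.1
          tauto
      · intro G hG
        simp only [coe_filter, mem_univ, true_and, Set.mem_ofPred_eq, mem_insert,
          forall_eq_or_imp] at hG ⊢
        refine ⟨?_, fun e' he' => ?_⟩
        · rw [mem_toggle hed]
          have := hG.2
          tauto
        · rw [mem_toggle hed]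
          have h3 : e' ≠ e := by rintro rfl; exact he he'
          have := hG.1 e' he'
          tauto
      · intro G _; exact toggle_toggle hed G
      · intro G _; exact toggle_toggle hed G
    rw [h1, ← h2]; ring

open scoped Classical in
/-- The `k`-cliques of `G` inside `S`. -/
noncomputable def Y {n : ℕ} (S : Finset (Fin n)) (k : ℕ) (G : SimpleGraph (Fin n)) :
    Finset (Finset (Fin n)) :=
  (S.powersetCard k).filter (fun A => G.IsClique A)

/-- Families of `k`-cliques sharing at most one vertex pairwise. -/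
def Good {n : ℕ} (S : Finset (Fin n)) (k : ℕ) (G : SimpleGraph (Fin n))
    (Z : Finset (Finset (Fin n))) : Prop :=
  Z ⊆ Y S k G ∧ ∀ A ∈ Z, ∀ B ∈ Z, A ≠ B → ¬ 2 ≤ (A ∩ B).card

open scoped Classical in
/-- Maximal size of such a family. -/
noncomputable def X {n : ℕ} (S : Finset (Fin n)) (k : ℕ) (G : SimpleGraph (Fin n)) : ℕ :=
  ((univ : Finset (Finset (Finset (Fin n)))).filter (Good S k G)).sup Finset.card

theorem le_X {n : ℕ} {S : Finset (Fin n)} {k : ℕ} {G : SimpleGraph (Fin n)}
    {Z : Finset (Finset (Fin n))} (h : Good S k G Z) : Z.card ≤ X S k G := by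
  classical
  exact Finset.le_sup (f := Finset.card) (mem_filter.2 ⟨mem_univ _, h⟩)

theorem exists_X {n : ℕ} (S : Finset (Fin n)) (k : ℕ) (G : SimpleGraph (Fin n)) :
    ∃ Z, Good S k G Z ∧ Z.card = X S k G := by
  classical
  have hne : ((univ : Finset (Finset (Finset (Fin n)))).filter (Good S k G)).Nonempty :=
    ⟨∅, mem_filter.2 ⟨mem_univ _, ⟨empty_subset _, by simp⟩⟩⟩
  obtain ⟨Z, hZ, h⟩ := Finset.exists_mem_eq_sup _ hne Finset.card
  exact ⟨Z, (mem_filter.1 hZ).2, h.symm⟩

theorem X_le_add_one {n : ℕ} (S : Finset (Fin n)) (k : ℕ) (G G' : SimpleGraph (Fin n))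
    (e : Sym2 (Fin n)) (h : ∀ e', e' ≠ e → (e' ∈ G.edgeSet ↔ e' ∈ G'.edgeSet)) :
    X S k G ≤ X S k G' + 1 := by
  classical
  obtain ⟨Z, hZ, hc⟩ := exists_X S k G
  rw [← hc]
  have h1 : Good S k G' (Z.filter (fun A => e ∉ cl A)) := by
    refine ⟨fun A hA => ?_, fun A hA B hB => hZ.2 A (mem_filter.1 hA).1 B (mem_filter.1 hB).1⟩
    obtain ⟨hA1, hA2⟩ := mem_filter.1 hA
    have hA3 := mem_filter.1 (hZ.1 hA1)
    refine mem_filter.2 ⟨hA3.1, ?_⟩
    rw [isClique_iff]
    intro e' he'
    have h4 : e' ≠ e := by rintro rfl; exact hA2 he'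
    exact (h e' h4).1 ((isClique_iff G A).1 hA3.2 e' he')
  have h2 : (Z.filter (fun A => e ∈ cl A)).card ≤ 1 := by
    rw [card_le_one]
    intro A hA B hB
    by_contra hne
    obtain ⟨hA1, hA2⟩ := mem_filter.1 hA
    obtain ⟨hB1, hB2⟩ := mem_filter.1 hB
    apply hZ.2 A hA1 B hB1 hne
    revert hA2 hB2
    induction e using Sym2.ind with
    | _ a b =>
      intro hA2 hB2
      obtain ⟨h5, h6, h7⟩ := mem_cl.1 hA2
      obtain ⟨-, h6', h7'⟩ := mem_cl.1 hB2
      have : ({a, b} : Finset (Fin n)) ⊆ A ∩ B := by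
        intro x hx
        simp only [mem_insert, mem_singleton] at hx
        rcases hx with rfl | rfl
        · exact mem_inter.2 ⟨h6, h6'⟩
        · exact mem_inter.2 ⟨h7, h7'⟩
      calc 2 = ({a, b} : Finset (Fin n)).card := (card_pair h5).symm
        _ ≤ _ := card_le_card this
  have h3 := Finset.card_filter_add_card_filter_not (s := Z) (fun A => e ∈ cl A)
  have h4 := le_X h1
  omega

theorem descFactorial_mul_pow_le {k m : ℕ} (h : k ≤ m) (l : ℕ) :
    k.descFactorial l * m ^ l ≤ m.descFactorial l * k ^ l := by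
  induction l with
  | zero => simp
  | succ l ih =>
    rw [Nat.descFactorial_succ, Nat.descFactorial_succ, pow_succ, pow_succ]
    have h1 : (k - l) * m ≤ (m - l) * k := by
      rcases le_total k l with hkl | hkl
      · rw [Nat.sub_eq_zero_of_le hkl]; simp
      · have hml : l ≤ m := hkl.trans h
        zify [hkl, hml]
        have h2 : (l : ℤ) * k ≤ l * m := by exact_mod_cast Nat.mul_le_mul_left l h
        nlinarith
    calc (k - l) * k.descFactorial l * (m ^ l * m)
        = ((k - l) * m) * (k.descFactorial l * m ^ l) := by ring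
      _ ≤ ((m - l) * k) * (m.descFactorial l * k ^ l) := Nat.mul_le_mul h1 ih
      _ = _ := by ring

theorem choose_mul_pow_le {k m : ℕ} (h : k ≤ m) (l : ℕ) :
    k.choose l * m ^ l ≤ m.choose l * k ^ l := by
  have h1 := descFactorial_mul_pow_le h l
  rw [Nat.descFactorial_eq_factorial_mul_choose, Nat.descFactorial_eq_factorial_mul_choose,
    mul_assoc, mul_assoc] at h1
  exact Nat.le_of_mul_le_mul_left h1 (Nat.factorial_pos l)

theorem choose_bound {k m l : ℕ} (hk : 0 < k) (h : k ≤ m) (hl : l ≤ k) :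
    ((k.choose l * (m - l).choose (k - l) : ℕ) : ℝ) ≤
      ((k : ℝ) ^ 2 / m) ^ l * (m.choose k : ℝ) := by
  have hm : (0 : ℝ) < m := by exact_mod_cast lt_of_lt_of_le hk h
  rw [div_pow, div_mul_eq_mul_div, le_div_iff₀ (by positivity)]
  have h1 := Nat.choose_mul (n := m) (k := k) (s := l) hl
  have h2 := choose_mul_pow_le h l
  have h3 : k.choose l ≤ k ^ l := Nat.choose_le_pow k l
  have hpos : 0 < m.choose l := Nat.choose_pos (hl.trans h)
  have h4 : k.choose l * (m - l).choose (k - l) * m ^ l ≤ (k ^ 2) ^ l * m.choose k := by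
    apply Nat.le_of_mul_le_mul_left _ hpos
    calc m.choose l * (k.choose l * (m - l).choose (k - l) * m ^ l)
        = (m.choose l * (m - l).choose (k - l)) * (k.choose l * m ^ l) := by ring
      _ = (m.choose k * k.choose l) * (k.choose l * m ^ l) := by rw [h1]
      _ ≤ (m.choose k * k ^ l) * (m.choose l * k ^ l) := by
          apply Nat.mul_le_mul _ h2
          exact Nat.mul_le_mul_left _ h3
      _ = m.choose l * ((k ^ 2) ^ l * m.choose k) := by ring
  exact_mod_cast h4

open scoped Classical in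
/-- The number of `k`-subsets of `S` meeting a given `k`-subset in exactly `l` elements. -/
theorem card_inter {n : ℕ} (S : Finset (Fin n)) (k l : ℕ) (A : Finset (Fin n))
    (hA : A ∈ S.powersetCard k) :
    ((S.powersetCard k).filter (fun B => (A ∩ B).card = l)).card ≤
      k.choose l * (S.card - l).choose (k - l) := by
  obtain ⟨hAS, hAk⟩ := mem_powersetCard.1 hA
  calc ((S.powersetCard k).filter (fun B => (A ∩ B).card = l)).card
      ≤ ((A.powersetCard l).biUnion (fun L => (S.powersetCard k).filter (fun B => L ⊆ B))).card := by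
        apply card_le_card
        intro B hB
        obtain ⟨h1, h2⟩ := mem_filter.1 hB
        exact mem_biUnion.2 ⟨A ∩ B, mem_powersetCard.2 ⟨inter_subset_left, h2⟩,
          mem_filter.2 ⟨h1, inter_subset_right⟩⟩
    _ ≤ ∑ L ∈ A.powersetCard l, ((S.powersetCard k).filter (fun B => L ⊆ B)).card :=
        card_biUnion_le
    _ ≤ ∑ L ∈ A.powersetCard l, (S.card - l).choose (k - l) := by
        apply sum_le_sum
        intro L hL
        obtain ⟨hLA, hLl⟩ := mem_powersetCard.1 hL
        have h1 : ((S.powersetCard k).filter (fun B => L ⊆ B)).card ≤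
            ((S \ L).powersetCard (k - l)).card := by
          apply card_le_card_of_injOn (fun B => B \ L)
          · intro B hB
            obtain ⟨h2, h3⟩ := mem_filter.1 (mem_coe.1 hB)
            obtain ⟨h4, h5⟩ := mem_powersetCard.1 h2
            refine mem_coe.2 (mem_powersetCard.2 ⟨sdiff_subset_sdiff h4 (Subset.refl _), ?_⟩)
            rw [card_sdiff_of_subset h3, h5, hLl]
          · intro B hB B' hB' h
            obtain ⟨-, h3⟩ := mem_filter.1 (mem_coe.1 hB)
            obtain ⟨-, h3'⟩ := mem_filter.1 (mem_coe.1 hB')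
            have h : B \ L = B' \ L := h
            rw [← sdiff_union_of_subset h3, ← sdiff_union_of_subset h3', h]
        rw [card_powersetCard, card_sdiff_of_subset (hLA.trans hAS), hLl] at h1
        exact h1
    _ = k.choose l * (S.card - l).choose (k - l) := by
        rw [sum_const, card_powersetCard, hAk, smul_eq_mul]

open scoped Classical in
theorem card_clique {n : ℕ} (A : Finset (Fin n)) :
    ((univ.filter (fun G : SimpleGraph (Fin n) => G.IsClique A)).card : ℝ) =
      (Fintype.card (SimpleGraph (Fin n)) : ℝ) / 2 ^ (A.card.choose 2) := by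
  have h := card_contains (cl A) cl_not_diag
  rw [cl_card] at h
  have h2 : (univ.filter (fun G : SimpleGraph (Fin n) => G.IsClique A)) =
      (univ.filter (fun G : SimpleGraph (Fin n) => ∀ e ∈ cl A, e ∈ G.edgeSet)) := by
    ext G
    simp only [mem_filter, mem_univ, true_and, isClique_iff]
  rw [eq_div_iff (by positivity), ← h, h2]
  push_cast
  rfl

open scoped Classical in
theorem card_clique2 {n : ℕ} (A B : Finset (Fin n)) (k l : ℕ) (hA : A.card = k) (hB : B.card = k)
    (hl : (A ∩ B).card = l) :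
    ((univ.filter (fun G : SimpleGraph (Fin n) => G.IsClique A ∧ G.IsClique B)).card : ℝ) =
      (Fintype.card (SimpleGraph (Fin n)) : ℝ) / 2 ^ (k.choose 2) / 2 ^ (k.choose 2) *
        2 ^ (l.choose 2) := by
  have h := card_contains (cl A ∪ cl B) (fun e he => by
    rcases mem_union.1 he with h | h
    · exact cl_not_diag e h
    · exact cl_not_diag e h)
  have h1 := Finset.card_union_add_card_inter (cl A) (cl B)
  rw [cl_inter, cl_card, cl_card, cl_card, hA, hB, hl] at h1
  have h2 : ((univ.filter (fun G : SimpleGraph (Fin n) => G.IsClique A ∧ G.IsClique B)).card) =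
      (univ.filter (fun G : SimpleGraph (Fin n) => ∀ e ∈ cl A ∪ cl B, e ∈ G.edgeSet)).card := by
    congr 1
    ext G
    simp only [mem_filter, mem_univ, true_and, isClique_iff, mem_union]
    constructor
    · rintro ⟨h3, h4⟩ e (h5 | h5)
      · exact h3 e h5
      · exact h4 e h5
    · intro h3
      exact ⟨fun e he => h3 e (Or.inl he), fun e he => h3 e (Or.inr he)⟩
  rw [h2, div_div, ← pow_add, ← h1, pow_add, ← h]
  push_cast
  field_simp

end A3

open scoped Classical in
/-- **[A3]** (uses A1, A2)  Probability that a fixed vertex set `S` contains no `k`-clique.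

Let `m = |S|`, `μ = C(m,k) 2^{-C(k,2)}`, `Δ = Σ_{l=2}^{k-1} (k²/m)^l 2^{C(l,2)}`.
Let `X(G)` be the maximal size of a family of `k`-cliques `⊆ S` of `G` which pairwise share at most one
vertex.  Changing one edge changes `X` by at most `1` (all members containing the edge: at most one).
`E |Y| = μ` for `Y(G)` = the set of all `k`-cliques in `S`; the expected number of ordered pairs of
distinct `k`-cliques `A, B ⊆ S` with `|A ∩ B| = l ≥ 2` is
`Σ_l C(m,k) C(k,l) C(m-k,k-l) 2^{-2C(k,2)+C(l,2)} ≤ μ² Σ_l (k²/m)^l 2^{C(l,2)} = μ² Δ`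
(as `C(k,l) C(m-k,k-l) ≤ C(k,l) C(m-l,k-l) ≤ (k²/m)^l C(m,k)`).  By A2 with `λ = 1/(1+μΔ)`:
`E X ≥ 2λμ - λ²(μ + μ²Δ) = μ/(1+μΔ)`.  A1 with `s = E X` bounds `P(X ≤ 0)`. -/
theorem no_clique_prob {n : ℕ} (S : Finset (Fin n)) (k : ℕ) (hk : 2 ≤ k) (hkm : k ≤ S.card) :
    ((univ.filter (fun G : SimpleGraph (Fin n) => ¬ ∃ K ⊆ S, G.IsNClique k K)).card : ℝ) ≤
      (Fintype.card (SimpleGraph (Fin n)) : ℝ) *
        Real.exp (-(4 * ((((S.card).choose k : ℝ) / 2 ^ (k.choose 2)) /
          (1 + (((S.card).choose k : ℝ) / 2 ^ (k.choose 2)) *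
            ∑ l ∈ Finset.Ico 2 k, ((k : ℝ) ^ 2 / S.card) ^ l * 2 ^ (l.choose 2))) ^ 2 /
              (n : ℝ) ^ 2)) := by
  set μ : ℝ := (S.card.choose k : ℝ) / 2 ^ (k.choose 2) with hμ
  set Δ : ℝ := ∑ l ∈ Finset.Ico 2 k, ((k : ℝ) ^ 2 / S.card) ^ l * 2 ^ (l.choose 2) with hΔ
  set T : ℝ := (Fintype.card (SimpleGraph (Fin n)) : ℝ) with hT
  have hTpos : 0 < T := by rw [hT]; exact_mod_cast Fintype.card_pos
  have hμ0 : 0 ≤ μ := by positivity
  have hΔ0 : 0 ≤ Δ := by rw [hΔ]; positivity
  have hden : 0 < 1 + μ * Δ := by positivity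
  -- the mean of the number of cliques
  have hY : ∑ G : SimpleGraph (Fin n), ((A3.Y S k G).card : ℝ) = T * μ := by
    have h1 : ∀ G : SimpleGraph (Fin n), ((A3.Y S k G).card : ℝ) =
        ∑ A ∈ S.powersetCard k, if G.IsClique A then (1 : ℝ) else 0 := by
      intro G
      rw [Finset.sum_ite]
      simp [A3.Y]
    simp_rw [h1]
    rw [Finset.sum_comm]
    have h2 : ∀ A ∈ S.powersetCard k,
        (∑ G : SimpleGraph (Fin n), if G.IsClique A then (1 : ℝ) else 0) =
          T / 2 ^ (k.choose 2) := by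
      intro A hA
      rw [Finset.sum_ite]
      simp only [sum_const, nsmul_eq_mul, mul_one, mul_zero, add_zero]
      rw [A3.card_clique, (mem_powersetCard.1 hA).2]
    rw [Finset.sum_congr rfl h2, sum_const, card_powersetCard, nsmul_eq_mul, hμ]
    ring
  -- the mean number of conflicting pairs
  have hP : ∑ G : SimpleGraph (Fin n),
      ((((A3.Y S k G) ×ˢ (A3.Y S k G)).filter
        (fun p => p.1 ≠ p.2 ∧ 2 ≤ (p.1 ∩ p.2).card)).card : ℝ) ≤ T * (μ ^ 2 * Δ) := by
    have h1 : ∀ G : SimpleGraph (Fin n), ((((A3.Y S k G) ×ˢ (A3.Y S k G)).filter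
        (fun p => p.1 ≠ p.2 ∧ 2 ≤ (p.1 ∩ p.2).card)).card : ℝ) ≤
        ∑ A ∈ S.powersetCard k, ∑ l ∈ Finset.Ico 2 k,
          ∑ B ∈ (S.powersetCard k).filter (fun B : Finset (Fin n) => (A ∩ B).card = l),
            if G.IsClique A ∧ G.IsClique B then (1 : ℝ) else 0 := by
      intro G
      have h2 : (((A3.Y S k G) ×ˢ (A3.Y S k G)).filter
        (fun p => p.1 ≠ p.2 ∧ 2 ≤ (p.1 ∩ p.2).card)) ⊆
        (S.powersetCard k).biUnion (fun A => (Finset.Ico 2 k).biUnion (fun l =>
          (((S.powersetCard k).filter (fun B : Finset (Fin n) => (A ∩ B).card = l)).filter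
            (fun B : Finset (Fin n) => G.IsClique A ∧ G.IsClique B)).image (fun B => (A, B)))) := by
        rintro ⟨A, B⟩ h
        obtain ⟨h3, h4, h5⟩ := mem_filter.1 h
        obtain ⟨h6, h7⟩ := mem_product.1 h3
        obtain ⟨h8, h9⟩ := mem_filter.1 h6
        obtain ⟨h8', h9'⟩ := mem_filter.1 h7
        simp only at h4 h5 h8 h9 h8' h9'
        obtain ⟨-, hAk⟩ := mem_powersetCard.1 h8
        obtain ⟨-, hBk⟩ := mem_powersetCard.1 h8'
        have h10 : (A ∩ B).card < k := by
          by_contra hcon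
          push Not at hcon
          apply h4
          have e1 : A ∩ B = A := eq_of_subset_of_card_le inter_subset_left (by omega)
          have e2 : A ∩ B = B := eq_of_subset_of_card_le inter_subset_right (by omega)
          rw [← e1, e2]
        refine mem_biUnion.2 ⟨A, h8, mem_biUnion.2 ⟨(A ∩ B).card, mem_Ico.2 ⟨h5, h10⟩, ?_⟩⟩
        exact mem_image.2 ⟨B, mem_filter.2 ⟨mem_filter.2 ⟨h8', rfl⟩, h9, h9'⟩, rfl⟩
      have h3 := card_le_card h2
      have h4 : (((S.powersetCard k).biUnion (fun A => (Finset.Ico 2 k).biUnion (fun l =>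
          (((S.powersetCard k).filter (fun B : Finset (Fin n) => (A ∩ B).card = l)).filter
            (fun B : Finset (Fin n) => G.IsClique A ∧ G.IsClique B)).image (fun B => (A, B))))).card : ℝ) ≤
          ∑ A ∈ S.powersetCard k, ∑ l ∈ Finset.Ico 2 k,
          ∑ B ∈ (S.powersetCard k).filter (fun B : Finset (Fin n) => (A ∩ B).card = l),
            if G.IsClique A ∧ G.IsClique B then (1 : ℝ) else 0 := by
        refine le_trans (Nat.cast_le.2 card_biUnion_le) ?_
        push_cast
        apply sum_le_sum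
        intro A _
        refine le_trans (Nat.cast_le.2 card_biUnion_le) ?_
        push_cast
        apply sum_le_sum
        intro l _
        rw [Finset.sum_ite]
        simp only [sum_const, nsmul_eq_mul, mul_one, mul_zero, add_zero]
        exact_mod_cast card_image_le
      exact le_trans (by exact_mod_cast h3) h4
    refine le_trans (sum_le_sum (fun G _ => h1 G)) ?_
    rw [Finset.sum_comm]
    have h5 : ∀ A ∈ S.powersetCard k, (∑ G : SimpleGraph (Fin n), ∑ l ∈ Finset.Ico 2 k,
        ∑ B ∈ (S.powersetCard k).filter (fun B => (A ∩ B).card = l),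
          if G.IsClique A ∧ G.IsClique B then (1 : ℝ) else 0) ≤
          T / 2 ^ (k.choose 2) * (μ * Δ) := by
      intro A hA
      rw [Finset.sum_comm, hΔ, mul_sum, mul_sum]
      apply sum_le_sum
      intro l hl
      obtain ⟨hl2, hlk⟩ := mem_Ico.1 hl
      rw [Finset.sum_comm]
      have h6 : ∀ B ∈ (S.powersetCard k).filter (fun B => (A ∩ B).card = l),
          (∑ G : SimpleGraph (Fin n), if G.IsClique A ∧ G.IsClique B then (1 : ℝ) else 0) =
            T / 2 ^ (k.choose 2) / 2 ^ (k.choose 2) * 2 ^ (l.choose 2) := by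
        intro B hB
        obtain ⟨hB1, hB2⟩ := mem_filter.1 hB
        rw [Finset.sum_ite]
        simp only [sum_const, nsmul_eq_mul, mul_one, mul_zero, add_zero]
        exact A3.card_clique2 A B k l (mem_powersetCard.1 hA).2 (mem_powersetCard.1 hB1).2 hB2
      rw [Finset.sum_congr rfl h6, sum_const, nsmul_eq_mul]
      have h7 : (((S.powersetCard k).filter (fun B => (A ∩ B).card = l)).card : ℝ) ≤
          ((k : ℝ) ^ 2 / S.card) ^ l * (S.card.choose k : ℝ) :=
        le_trans (by exact_mod_cast A3.card_inter S k l A hA)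
          (A3.choose_bound (by omega) hkm hlk.le)
      calc (((S.powersetCard k).filter (fun B => (A ∩ B).card = l)).card : ℝ) *
            (T / 2 ^ (k.choose 2) / 2 ^ (k.choose 2) * 2 ^ (l.choose 2))
          ≤ (((k : ℝ) ^ 2 / S.card) ^ l * (S.card.choose k : ℝ)) *
            (T / 2 ^ (k.choose 2) / 2 ^ (k.choose 2) * 2 ^ (l.choose 2)) := by
            apply mul_le_mul_of_nonneg_right h7; positivity
        _ = _ := by rw [hμ]; ring
    refine le_trans (sum_le_sum h5) ?_
    rw [sum_const, card_powersetCard, nsmul_eq_mul]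
    apply le_of_eq
    rw [hμ]; ring
  -- the mean of `X`
  have hX : μ / (1 + μ * Δ) ≤ (∑ G : SimpleGraph (Fin n), (A3.X S k G : ℝ)) / T := by
    rw [le_div_iff₀ hTpos]
    set lam : ℝ := 1 / (1 + μ * Δ) with hlam
    have h1 : ∀ G : SimpleGraph (Fin n), 2 * lam * ((A3.Y S k G).card : ℝ) -
        lam ^ 2 * (((A3.Y S k G).card : ℝ) + ((((A3.Y S k G) ×ˢ (A3.Y S k G)).filter
        (fun p => p.1 ≠ p.2 ∧ 2 ≤ (p.1 ∩ p.2).card)).card : ℝ)) ≤ (A3.X S k G : ℝ) := by
      intro G
      obtain ⟨Z, hZ1, hZ2, hZ3⟩ := indep_family (A3.Y S k G) (fun A B => 2 ≤ (A ∩ B).card)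
        (fun A B h => by rwa [inter_comm])
      refine le_trans ?_ (Nat.cast_le.2 (A3.le_X (Z := Z) ⟨hZ1, hZ2⟩))
      refine le_of_eq_of_le ?_ (hZ3 lam)
      congr!
    have h2 := sum_le_sum (fun G (_ : G ∈ (univ : Finset (SimpleGraph (Fin n)))) => h1 G)
    rw [Finset.sum_sub_distrib, ← mul_sum, ← mul_sum, Finset.sum_add_distrib, hY] at h2
    refine le_trans ?_ h2
    have h3 : lam ^ 2 * (T * μ + ∑ G : SimpleGraph (Fin n),
      ((((A3.Y S k G) ×ˢ (A3.Y S k G)).filter
        (fun p => p.1 ≠ p.2 ∧ 2 ≤ (p.1 ∩ p.2).card)).card : ℝ)) ≤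
        lam ^ 2 * (T * μ + T * (μ ^ 2 * Δ)) := by
      apply mul_le_mul_of_nonneg_left _ (by positivity)
      linarith
    have h4 : μ / (1 + μ * Δ) * T = 2 * lam * (T * μ) - lam ^ 2 * (T * μ + T * (μ ^ 2 * Δ)) := by
      rw [hlam]
      field_simp
      ring
    rw [h4]
    linarith
  have hs0 : 0 ≤ μ / (1 + μ * Δ) := by positivity
  have key := mcdiarmid_graph (n := n) (fun G => (A3.X S k G : ℝ)) (by
    intro G G' e h
    have h1 := A3.X_le_add_one S k G G' e h
    have h2 := A3.X_le_add_one S k G' G e (fun e' he' => (h e' he').symm)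
    have h1' : (A3.X S k G : ℝ) ≤ A3.X S k G' + 1 := by exact_mod_cast h1
    have h2' : (A3.X S k G' : ℝ) ≤ A3.X S k G + 1 := by exact_mod_cast h2
    rw [abs_le]
    constructor <;> linarith) (μ / (1 + μ * Δ)) hs0
  refine le_trans ?_ key
  have hsub : (univ.filter (fun G : SimpleGraph (Fin n) => ¬ ∃ K ⊆ S, G.IsNClique k K)) ⊆
      univ.filter (fun G : SimpleGraph (Fin n) => (A3.X S k G : ℝ) ≤
        (∑ G : SimpleGraph (Fin n), (A3.X S k G : ℝ)) / T - μ / (1 + μ * Δ)) := by
    intro G hG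
    refine mem_filter.2 ⟨mem_univ _, ?_⟩
    have h1 := (mem_filter.1 hG).2
    have h2 : A3.X S k G = 0 := by
      obtain ⟨Z, hZ, hc⟩ := A3.exists_X S k G
      rw [← hc, card_eq_zero]
      by_contra hne
      obtain ⟨A, hA⟩ := nonempty_iff_ne_empty.2 hne
      obtain ⟨h3, h4⟩ := mem_filter.1 (hZ.1 hA)
      obtain ⟨h5, h6⟩ := mem_powersetCard.1 h3
      exact h1 ⟨A, h5, ⟨h4, h6⟩⟩
    rw [h2]
    push_cast
    linarith
  exact_mod_cast card_le_card hsub

end Pool.Agent.MP_d13902_co_B
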