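import Pool.Agent.MP_d13902_co_B.Defs

set_option autoImplicit false

namespace Pool.Agent.MP_d13902_co_B

open Finset

namespace A4aux

/-- polynomials in the logarithm are eventually below small powers -/
theorem ev_log_pow_le (C : ℝ) (j : ℕ) (c : ℝ) (hc : 0 < c) :
    ∀ᶠ n : ℕ in Filter.atTop, C * (Real.logb 2 n) ^ j ≤ (n : ℝ) ^ c := by
  have hl2 : 0 < Real.log 2 := Real.log_pos (by norm_num)
  have h := (isLittleO_log_rpow_rpow_atTop (j : ℝ) hc)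
  have hpos : 0 < (Real.log 2) ^ j / (|C| + 1) := by positivity
  have h2 := h.bound hpos
  have h3 := tendsto_natCast_atTop_atTop.eventually h2
  filter_upwards [h3, Filter.eventually_ge_atTop 2] with n hn hn2
  have hnr : (2 : ℝ) ≤ n := by exact_mod_cast hn2
  have hlog : 0 ≤ Real.log n := Real.log_nonneg (by linarith)
  rw [Real.rpow_natCast, Real.norm_of_nonneg (by positivity), Real.norm_of_nonneg (by positivity)]
    at hn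
  have hC : C ≤ |C| := le_abs_self C
  have e1 : (Real.logb 2 n) ^ j = (Real.log n) ^ j / (Real.log 2) ^ j := by
    rw [Real.logb, div_pow]
  rw [e1]
  have hx : (0:ℝ) ≤ (n:ℝ) ^ c := by positivity
  calc C * (Real.log n ^ j / Real.log 2 ^ j)
      ≤ |C| * (Real.log n ^ j / Real.log 2 ^ j) := by
        apply mul_le_mul_of_nonneg_right hC (by positivity)
    _ ≤ |C| * ((Real.log 2 ^ j / (|C| + 1) * (n:ℝ) ^ c) / Real.log 2 ^ j) := by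
        gcongr
    _ = (|C| / (|C| + 1)) * (n:ℝ) ^ c := by
        field_simp
    _ ≤ 1 * (n:ℝ) ^ c := by
        apply mul_le_mul_of_nonneg_right _ hx
        rw [div_le_one (by positivity)]
        linarith
    _ = (n:ℝ) ^ c := one_mul _

theorem two_pow_choose_two (k : ℕ) :
    (2:ℝ) ^ (k.choose 2) = ((2:ℝ) ^ (((k:ℝ) - 1) / 2)) ^ k := by
  rw [← Real.rpow_natCast (2:ℝ) (k.choose 2), ← Real.rpow_natCast _ k,
    ← Real.rpow_mul (by norm_num), Nat.cast_choose_two]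
  congr 1
  ring

theorem mu_ge (δ : ℝ) (hδ : 0 < δ) (hδ1 : δ < 1) (n k m : ℕ) (L : ℝ)
    (hn : (n:ℝ) = (2:ℝ) ^ L) (hL1 : 1 ≤ L) (hL2 : 8 / δ ≤ L)
    (hk1 : (2 - δ) * L ≤ k) (hk2 : (k:ℝ) ≤ (2 - δ) * L + 1)
    (hm1 : (n:ℝ) / L ^ 2 ≤ m) (hm2 : (m:ℝ) ≤ n)
    (c1 : 12 * L ^ 3 ≤ (2:ℝ) ^ (δ / 4 * L)) :
    (m:ℝ) ^ 2 ≤ (m.choose k : ℝ) / 2 ^ (k.choose 2) := by
  have hLpos : 0 < L := by linarith
  have hkL : L ≤ k := by nlinarith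
  have hk3 : (k:ℝ) ≤ 3 * L := by nlinarith
  have hkpos : (0:ℝ) < k := by linarith
  have hnpos : (0:ℝ) < n := by rw [hn]; positivity
  have hn12 : 12 * L ^ 3 ≤ n := by
    refine c1.trans ?_
    rw [hn]
    apply Real.rpow_le_rpow_of_exponent_le (by norm_num)
    nlinarith
  have hm6 : 12 * L ≤ m := by
    refine le_trans ?_ hm1
    rw [le_div_iff₀ (by positivity)]
    nlinarith [hn12]
  have hmpos : (0:ℝ) < m := by linarith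
  have h2k : 2 * (k:ℝ) ≤ m := by linarith
  have h2k' : 2 * k ≤ m := by exact_mod_cast h2k
  -- binomial lower bound
  have hb1 : ((m:ℝ) / (2 * k)) ^ k ≤ (m.choose k : ℝ) := by
    have h1 : (((m + 1 - k : ℕ) : ℝ) ^ k) / (k.factorial : ℝ) ≤ (m.choose k : ℝ) := by
      have := Nat.pow_le_choose (α := ℝ) k m
      exact_mod_cast this
    refine le_trans ?_ h1
    rw [div_pow]
    have hfac : (k.factorial : ℝ) ≤ (k:ℝ) ^ k := by exact_mod_cast Nat.factorial_le_pow k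
    have hfpos : (0:ℝ) < k.factorial := by exact_mod_cast Nat.factorial_pos k
    have hmk : (m:ℝ) / 2 ≤ ((m + 1 - k : ℕ) : ℝ) := by
      rw [Nat.cast_sub (by omega)]
      push_cast
      linarith
    calc (m:ℝ) ^ k / (2 * (k:ℝ)) ^ k = ((m:ℝ) / 2) ^ k / (k:ℝ) ^ k := by
          rw [div_pow, mul_pow, div_div]
      _ ≤ ((m + 1 - k : ℕ) : ℝ) ^ k / (k:ℝ) ^ k := by gcongr
      _ ≤ ((m + 1 - k : ℕ) : ℝ) ^ k / (k.factorial : ℝ) := by gcongr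
  rw [le_div_iff₀ (by positivity)]
  refine le_trans ?_ hb1
  rw [two_pow_choose_two, ← le_div_iff₀ (by positivity), ← div_pow]
  -- base
  have hbase : (2:ℝ) ^ (δ / 4 * L) ≤ (m:ℝ) / (2 * k) / (2:ℝ) ^ (((k:ℝ) - 1) / 2) := by
    rw [le_div_iff₀ (by positivity), le_div_iff₀ (by positivity)]
    have e1 : (2:ℝ) ^ (((k:ℝ) - 1) / 2) ≤ (2:ℝ) ^ ((1 - δ / 2) * L) := by
      apply Real.rpow_le_rpow_of_exponent_le (by norm_num)
      nlinarith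
    have e2 : (2:ℝ) ^ (δ / 4 * L) * (2:ℝ) ^ ((1 - δ / 2) * L) * (2:ℝ) ^ (δ / 4 * L) = n := by
      rw [hn, ← Real.rpow_add (by norm_num), ← Real.rpow_add (by norm_num)]
      congr 1
      ring
    set A := (2:ℝ) ^ (δ / 4 * L) with hA
    set B := (2:ℝ) ^ ((1 - δ / 2) * L) with hB
    have hApos : 0 < A := by positivity
    have hBpos : 0 < B := by positivity
    have hm' : (n:ℝ) ≤ m * L ^ 2 := by rwa [div_le_iff₀ (by positivity)] at hm1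
    have : A * B * (2 * k) * L ^ 2 ≤ m * L ^ 2 := by
      calc A * B * (2 * k) * L ^ 2 ≤ A * B * (2 * (3 * L)) * L ^ 2 := by gcongr
        _ = A * B * (6 * L ^ 3) := by ring
        _ ≤ A * B * A := by
            apply mul_le_mul_of_nonneg_left _ (by positivity)
            nlinarith [pow_pos hLpos 3]
        _ = n := e2
        _ ≤ m * L ^ 2 := hm'
    have h4 : A * B * (2 * k) ≤ m := le_of_mul_le_mul_right this (by positivity)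
    calc A * (2:ℝ) ^ (((k:ℝ) - 1) / 2) * (2 * k) ≤ A * B * (2 * k) := by gcongr
      _ ≤ m := h4
  calc (m:ℝ) ^ 2 ≤ (n:ℝ) ^ 2 := by gcongr
    _ = (2:ℝ) ^ (2 * L) := by
        rw [hn, ← Real.rpow_natCast, ← Real.rpow_mul (by norm_num)]
        congr 1
        push_cast
        ring
    _ ≤ (2:ℝ) ^ ((δ / 4 * L) * k) := by
        apply Real.rpow_le_rpow_of_exponent_le (by norm_num)
        have h8 : 8 ≤ δ * L := by
          rw [div_le_iff₀ hδ] at hL2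
          linarith
        nlinarith
    _ = ((2:ℝ) ^ (δ / 4 * L)) ^ k := by
        rw [Real.rpow_mul (by norm_num), Real.rpow_natCast]
    _ ≤ _ := by gcongr

theorem delta_le (δ : ℝ) (hδ : 0 < δ) (hδ1 : δ < 1) (n k m : ℕ) (L : ℝ)
    (hn : (n:ℝ) = (2:ℝ) ^ L) (hL1 : 1 ≤ L)
    (hk1 : (2 - δ) * L ≤ k) (hk2 : (k:ℝ) ≤ (2 - δ) * L + 1)
    (hm1 : (n:ℝ) / L ^ 2 ≤ m)
    (c2 : 36 * L ^ 4 ≤ (2:ℝ) ^ (δ / 2 * L)) :
    ∑ l ∈ Finset.Ico 2 k, ((k:ℝ) ^ 2 / m) ^ l * 2 ^ (l.choose 2) ≤ 4 * (k:ℝ) ^ 4 / (m:ℝ) ^ 2 := by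
  have hLpos : 0 < L := by linarith
  have hk3 : (k:ℝ) ≤ 3 * L := by nlinarith
  have hkpos : (0:ℝ) < k := by nlinarith
  have hnpos : (0:ℝ) < n := by rw [hn]; positivity
  have hmpos : (0:ℝ) < m := lt_of_lt_of_le (by positivity) hm1
  have hm' : (n:ℝ) ≤ m * L ^ 2 := by rwa [div_le_iff₀ (by positivity)] at hm1
  set q : ℝ := (k:ℝ) ^ 2 / m * (2:ℝ) ^ ((k:ℝ) / 2) with hq
  have hq0 : 0 ≤ q := by positivity
  have hq2 : q ≤ 1 / 2 := by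
    rw [hq, div_mul_eq_mul_div, div_le_iff₀ hmpos]
    have e1 : (2:ℝ) ^ ((k:ℝ) / 2) ≤ 2 * (2:ℝ) ^ ((1 - δ / 2) * L) := by
      calc (2:ℝ) ^ ((k:ℝ) / 2) ≤ (2:ℝ) ^ (1 + (1 - δ / 2) * L) := by
            apply Real.rpow_le_rpow_of_exponent_le (by norm_num)
            nlinarith
        _ = 2 * (2:ℝ) ^ ((1 - δ / 2) * L) := by
            rw [Real.rpow_add (by norm_num), Real.rpow_one]
    have e2 : (2:ℝ) ^ ((1 - δ / 2) * L) * (2:ℝ) ^ (δ / 2 * L) = n := by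
      rw [hn, ← Real.rpow_add (by norm_num)]
      congr 1
      ring
    set A := (2:ℝ) ^ (δ / 2 * L) with hA
    set B := (2:ℝ) ^ ((1 - δ / 2) * L) with hB
    have hBpos : 0 < B := by positivity
    have h1 : (k:ℝ) ^ 2 * (2:ℝ) ^ ((k:ℝ) / 2) * L ^ 2 ≤ (1 / 2 * m) * L ^ 2 := by
      calc (k:ℝ) ^ 2 * (2:ℝ) ^ ((k:ℝ) / 2) * L ^ 2 ≤ (3 * L) ^ 2 * (2 * B) * L ^ 2 := by gcongr
        _ = 1 / 2 * (B * (36 * L ^ 4)) := by ring
        _ ≤ 1 / 2 * (B * A) := by gcongr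
        _ = 1 / 2 * n := by rw [e2]
        _ ≤ 1 / 2 * (m * L ^ 2) := by gcongr
        _ = (1 / 2 * m) * L ^ 2 := by ring
    exact le_of_mul_le_mul_right h1 (by positivity)
  have hterm : ∀ j : ℕ, j + 3 ≤ k → ((k:ℝ) ^ 2 / m) ^ (2 + j) * 2 ^ ((2 + j).choose 2) ≤
      2 * (k:ℝ) ^ 4 / (m:ℝ) ^ 2 * (1 / 2) ^ j := by
    intro j hj
    have e3 : (2:ℝ) ^ ((2 + j).choose 2) = 2 * ((2:ℝ) ^ (((j:ℝ) + 3) / 2)) ^ j := by
      have e5 : (2:ℝ) * ((2:ℝ) ^ (((j:ℝ) + 3) / 2)) ^ j =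
          (2:ℝ) ^ (1 + ((j:ℝ) + 3) / 2 * j) := by
        rw [Real.rpow_add (by norm_num), Real.rpow_one, ← Real.rpow_natCast _ j,
          ← Real.rpow_mul (by norm_num)]
      rw [e5, ← Real.rpow_natCast (2:ℝ) ((2 + j).choose 2), Nat.cast_choose_two]
      congr 1
      push_cast
      ring
    have e4 : (2:ℝ) ^ (((j:ℝ) + 3) / 2) ≤ (2:ℝ) ^ ((k:ℝ) / 2) := by
      apply Real.rpow_le_rpow_of_exponent_le (by norm_num)
      have : ((j:ℝ) + 3) ≤ k := by exact_mod_cast hj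
      linarith
    calc ((k:ℝ) ^ 2 / m) ^ (2 + j) * 2 ^ ((2 + j).choose 2)
        = 2 * (k:ℝ) ^ 4 / (m:ℝ) ^ 2 * ((k:ℝ) ^ 2 / m * (2:ℝ) ^ (((j:ℝ) + 3) / 2)) ^ j := by
          rw [e3, pow_add, mul_pow, div_pow]
          ring
      _ ≤ 2 * (k:ℝ) ^ 4 / (m:ℝ) ^ 2 * (1 / 2) ^ j := by
          apply mul_le_mul_of_nonneg_left _ (by positivity)
          apply pow_le_pow_left₀ (by positivity)
          refine le_trans ?_ hq2
          rw [hq]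
          gcongr
  rw [Finset.sum_Ico_eq_sum_range]
  calc ∑ i ∈ range (k - 2), ((k:ℝ) ^ 2 / m) ^ (2 + i) * 2 ^ ((2 + i).choose 2)
      ≤ ∑ i ∈ range (k - 2), 2 * (k:ℝ) ^ 4 / (m:ℝ) ^ 2 * (1 / 2) ^ i := by
        apply Finset.sum_le_sum
        intro i hi
        rw [Finset.mem_range] at hi
        exact hterm i (by omega)
    _ = 2 * (k:ℝ) ^ 4 / (m:ℝ) ^ 2 * ∑ i ∈ range (k - 2), (1 / 2 : ℝ) ^ i := by
        rw [Finset.mul_sum]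
    _ ≤ 2 * (k:ℝ) ^ 4 / (m:ℝ) ^ 2 * 2 := by
        gcongr
        exact sum_geometric_two_le _
    _ = 4 * (k:ℝ) ^ 4 / (m:ℝ) ^ 2 := by ring

theorem core (δ : ℝ) (hδ : 0 < δ) (hδ1 : δ < 1) (n k m : ℕ) (L : ℝ)
    (hn : (n:ℝ) = (2:ℝ) ^ L) (hL1 : 1 ≤ L) (hL2 : 8 / δ ≤ L)
    (hk1 : (2 - δ) * L ≤ k) (hk2 : (k:ℝ) ≤ (2 - δ) * L + 1)
    (hm1 : (n:ℝ) / L ^ 2 ≤ m) (hm2 : (m:ℝ) ≤ n)
    (c1 : 12 * L ^ 3 ≤ (2:ℝ) ^ (δ / 4 * L))
    (c2 : 36 * L ^ 4 ≤ (2:ℝ) ^ (δ / 2 * L))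
    (c3 : (L ^ 4 * (1 + 4 * (3 * L) ^ 4)) ^ 2 ≤ 2 * n) :
    2 * (n:ℝ) ≤ 4 * (((m.choose k : ℝ) / 2 ^ (k.choose 2)) /
      (1 + ((m.choose k : ℝ) / 2 ^ (k.choose 2)) *
        ∑ l ∈ Finset.Ico 2 k, ((k:ℝ) ^ 2 / m) ^ l * 2 ^ (l.choose 2))) ^ 2 / (n:ℝ) ^ 2 := by
  have hLpos : 0 < L := by linarith
  have hk3 : (k:ℝ) ≤ 3 * L := by nlinarith
  have hnpos : (0:ℝ) < n := by rw [hn]; positivity
  have hmpos : (0:ℝ) < m := lt_of_lt_of_le (by positivity) hm1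
  have hμ := mu_ge δ hδ hδ1 n k m L hn hL1 hL2 hk1 hk2 hm1 hm2 c1
  have hΔ := delta_le δ hδ hδ1 n k m L hn hL1 hk1 hk2 hm1 c2
  set μ : ℝ := (m.choose k : ℝ) / 2 ^ (k.choose 2) with hμd
  set Δ : ℝ := ∑ l ∈ Finset.Ico 2 k, ((k:ℝ) ^ 2 / m) ^ l * 2 ^ (l.choose 2) with hΔd
  have hμpos : 0 < μ := lt_of_lt_of_le (by positivity) hμ
  have hΔ0 : 0 ≤ Δ := by
    rw [hΔd]
    exact Finset.sum_nonneg (fun i _ => by positivity)
  have h1 : (m:ℝ) ^ 2 / (1 + 4 * (k:ℝ) ^ 4) ≤ μ / (1 + μ * Δ) := by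
    rw [div_le_div_iff₀ (by positivity) (by positivity)]
    have h2 : (m:ℝ) ^ 2 * Δ ≤ 4 * (k:ℝ) ^ 4 := by
      rw [le_div_iff₀ (by positivity)] at hΔ
      linarith
    nlinarith
  have h3 : (n:ℝ) ^ 2 / (L ^ 4 * (1 + 4 * (3 * L) ^ 4)) ≤ μ / (1 + μ * Δ) := by
    refine le_trans ?_ h1
    rw [← div_div]
    have h5 : (n:ℝ) ^ 2 / L ^ 4 ≤ (m:ℝ) ^ 2 := by
      calc (n:ℝ) ^ 2 / L ^ 4 = ((n:ℝ) / L ^ 2) ^ 2 := by rw [div_pow]; ring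
        _ ≤ (m:ℝ) ^ 2 := by gcongr
    gcongr
  have h4 : ((n:ℝ) ^ 2 / (L ^ 4 * (1 + 4 * (3 * L) ^ 4))) ^ 2 ≤ (μ / (1 + μ * Δ)) ^ 2 := by
    gcongr
  have h6 : (n:ℝ) ^ 3 / 2 ≤ ((n:ℝ) ^ 2 / (L ^ 4 * (1 + 4 * (3 * L) ^ 4))) ^ 2 := by
    rw [div_pow, div_le_div_iff₀ (by norm_num) (by positivity)]
    calc (n:ℝ) ^ 3 * (L ^ 4 * (1 + 4 * (3 * L) ^ 4)) ^ 2 ≤ (n:ℝ) ^ 3 * (2 * n) := by gcongr
      _ = ((n:ℝ) ^ 2) ^ 2 * 2 := by ring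
  rw [le_div_iff₀ (by positivity)]
  nlinarith [h4, h6]

end A4aux

/-- **[A4]** Numeric estimate.  `L = log₂ n`, `k = ⌈(2-δ)L⌉`, `m = ⌈n/L²⌉`.
`μ = C(m,k) 2^{-C(k,2)} ≥ [(m/k) 2^{-(k-1)/2}]^k ≥ [n^{δ/2}/(2L³)]^k ≥ m²` for large `n`
(`k - 1 ≤ (2-δ)L`), and `Δ ≤ 3k⁴/m²`: the `l=2` term is `2k⁴/m²`; in general the `l`-th term is
`[(k²/m) 2^{(l-1)/2}]^l` and `(k²/m) 2^{(l-1)/2} ≤ k² L² n^{-δ/2}` (as `l ≤ k-1`), so the terms with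
`l ≥ 8/δ` are `≤ n^{-3}` each and the terms `3 ≤ l < 8/δ` are `≤ (k²/m)^3 2^{32/δ²}` each.  So
`μ/(1+μΔ) = 1/(1/μ+Δ) ≥ m²/(1+3k⁴)` and the exponent is `≤ -4m⁴/((1+3k⁴)² n²) ≤ -2n` for large
`n`, while `C(n,m) ≤ 2^n`. -/
theorem bollobas_numeric (δ : ℝ) (hδ : 0 < δ) (hδ1 : δ < 1) :
    Filter.Tendsto (fun n : ℕ =>
      ((n.choose ⌈(n : ℝ) / (Real.logb 2 n) ^ 2⌉₊ : ℕ) : ℝ) *
        Real.exp (-(4 * ((((⌈(n : ℝ) / (Real.logb 2 n) ^ 2⌉₊).choose ⌈(2 - δ) * Real.logb 2 n⌉₊ : ℝ) /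
            2 ^ ((⌈(2 - δ) * Real.logb 2 n⌉₊).choose 2)) /
          (1 + (((⌈(n : ℝ) / (Real.logb 2 n) ^ 2⌉₊).choose ⌈(2 - δ) * Real.logb 2 n⌉₊ : ℝ) /
            2 ^ ((⌈(2 - δ) * Real.logb 2 n⌉₊).choose 2)) *
            ∑ l ∈ Finset.Ico 2 ⌈(2 - δ) * Real.logb 2 n⌉₊,
              ((⌈(2 - δ) * Real.logb 2 n⌉₊ : ℝ) ^ 2 / ⌈(n : ℝ) / (Real.logb 2 n) ^ 2⌉₊) ^ l *
                2 ^ (l.choose 2))) ^ 2 / (n : ℝ) ^ 2)))
      Filter.atTop (nhds 0) := by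
  have hlim : Filter.Tendsto (fun n : ℕ => (2 * Real.exp (-2)) ^ n) Filter.atTop (nhds 0) := by
    apply tendsto_pow_atTop_nhds_zero_of_lt_one (by positivity)
    have h1 : (2:ℝ) < Real.exp 2 := by
      have := Real.add_one_lt_exp (show (2:ℝ) ≠ 0 by norm_num)
      linarith
    rw [Real.exp_neg, ← div_eq_mul_inv, div_lt_one (Real.exp_pos 2)]
    exact h1
  have hL : Filter.Tendsto (fun n : ℕ => Real.logb 2 n) Filter.atTop Filter.atTop :=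
    (Real.tendsto_logb_atTop (by norm_num)).comp tendsto_natCast_atTop_atTop
  refine squeeze_zero' (Filter.Eventually.of_forall fun n => by positivity) ?_ hlim
  filter_upwards [hL.eventually_ge_atTop 1, hL.eventually_ge_atTop (8 / δ),
    A4aux.ev_log_pow_le 12 3 (δ / 4) (by positivity),
    A4aux.ev_log_pow_le 36 4 (δ / 2) (by positivity),
    A4aux.ev_log_pow_le 53000 16 1 (by norm_num),
    Filter.eventually_ge_atTop 2,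
    hL.eventually_ge_atTop 2] with n h1 h2 h3 h4 h5 h6 h7
  have hn2 : (2:ℝ) ≤ n := by exact_mod_cast h6
  have hnpos : (0:ℝ) < n := by linarith
  set L : ℝ := Real.logb 2 n with hLd
  have hn : (n:ℝ) = (2:ℝ) ^ L := by
    rw [hLd, Real.rpow_logb (by norm_num) (by norm_num) hnpos]
  have hLpos : 0 < L := by linarith
  set k : ℕ := ⌈(2 - δ) * L⌉₊ with hkd
  set m : ℕ := ⌈(n : ℝ) / L ^ 2⌉₊ with hmd
  have hk1 : (2 - δ) * L ≤ k := Nat.le_ceil _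
  have hk2 : (k:ℝ) ≤ (2 - δ) * L + 1 := (Nat.ceil_lt_add_one (by nlinarith)).le
  have hm1 : (n:ℝ) / L ^ 2 ≤ m := Nat.le_ceil _
  have hm2 : (m:ℝ) ≤ n := by
    have : m ≤ n := by
      rw [hmd, Nat.ceil_le]
      rw [div_le_iff₀ (by positivity)]
      exact le_mul_of_one_le_right hnpos.le (one_le_pow₀ h1)
    exact_mod_cast this
  have hrp : ∀ c : ℝ, (n:ℝ) ^ c = (2:ℝ) ^ (c * L) := by
    intro c
    rw [hn, ← Real.rpow_mul (by norm_num), mul_comm]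
  rw [hrp] at h3 h4
  rw [Real.rpow_one] at h5
  have c3 : (L ^ 4 * (1 + 4 * (3 * L) ^ 4)) ^ 2 ≤ 2 * n := by
    have h8 : L ^ 4 * (1 + 4 * (3 * L) ^ 4) ≤ 325 * L ^ 8 := by
      have : (1:ℝ) ≤ L ^ 4 := one_le_pow₀ h1
      nlinarith [pow_pos hLpos 4]
    calc (L ^ 4 * (1 + 4 * (3 * L) ^ 4)) ^ 2 ≤ (325 * L ^ 8) ^ 2 := by gcongr
      _ = 105625 * L ^ 16 := by ring
      _ ≤ 2 * (53000 * L ^ 16) := by nlinarith [pow_pos hLpos 16]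
      _ ≤ 2 * n := by gcongr
  have key := A4aux.core δ hδ hδ1 n k m L hn h1 h2 hk1 hk2 hm1 hm2 h3 h4 c3
  have hch : ((n.choose m : ℕ) : ℝ) ≤ (2:ℝ) ^ n := by exact_mod_cast Nat.choose_le_two_pow n m
  calc _ ≤ (2:ℝ) ^ n * Real.exp (-(2 * (n:ℝ))) := by
        apply mul_le_mul hch _ (Real.exp_pos _).le (by positivity)
        apply Real.exp_le_exp.mpr
        apply neg_le_neg
        exact key
    _ = (2 * Real.exp (-2)) ^ n := by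
        rw [mul_pow, ← Real.exp_nat_mul]
        congr 2
        ring

end Pool.Agent.MP_d13902_co_B
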