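import Pool.Agent.MP_d13902_co_B.A3
import Pool.Agent.MP_d13902_co_B.A4

set_option autoImplicit false

namespace Pool.Agent.MP_d13902_co_B

open Finset

/-- Greedy clique cover of a finset. -/
private theorem A5_cover {n : ℕ} (G : SimpleGraph (Fin n)) (k m : ℕ) (hk : 0 < k)
    (h : ∀ S : Finset (Fin n), S.card = m → ∃ K ⊆ S, G.IsNClique k K) :
    ∀ (N : ℕ) (U : Finset (Fin n)), U.card = N → ∃ (c : ℕ) (f : Fin n → ℕ),
      (∀ u ∈ U, f u < c) ∧ (∀ u ∈ U, ∀ v ∈ U, u ≠ v → f u = f v → G.Adj u v) ∧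
      k * c ≤ U.card + k * m := by
  intro N
  induction N using Nat.strong_induction_on with
  | _ N ih =>
    intro U hU
    by_cases hm : U.card < m
    · refine ⟨U.card, fun u => if hu : u ∈ U then (U.equivFin ⟨u, hu⟩ : ℕ) else 0, ?_, ?_, ?_⟩
      · intro u hu
        simp only [hu, dif_pos]
        exact (U.equivFin ⟨u, hu⟩).2
      · intro u hu v hv huv hf
        exfalso
        simp only [hu, hv, dif_pos] at hf
        have h1 := U.equivFin.injective (Fin.ext hf)
        exact huv (congrArg Subtype.val h1)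
      · have : k * U.card ≤ k * m := Nat.mul_le_mul_left _ hm.le
        omega
    · push Not at hm
      obtain ⟨S, hSU, hS⟩ := Finset.exists_subset_card_eq hm
      obtain ⟨K, hKS, hK⟩ := h S hS
      have hKU : K ⊆ U := hKS.trans hSU
      have hKc : K.card = k := hK.card_eq
      have hcard : (U \ K).card = U.card - k := by
        rw [Finset.card_sdiff_of_subset hKU, hKc]
      have hkU : k ≤ U.card := by
        rw [← hKc]; exact Finset.card_le_card hKU
      obtain ⟨c, f, hf1, hf2, hf3⟩ := ih (U \ K).card (by rw [hcard]; omega) (U \ K) rfl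
      refine ⟨c + 1, fun u => if u ∈ K then c else f u, ?_, ?_, ?_⟩
      · intro u hu
        by_cases huK : u ∈ K
        · simp [huK]
        · have := hf1 u (Finset.mem_sdiff.2 ⟨hu, huK⟩)
          simp only [huK, if_false]
          omega
      · intro u hu v hv huv hf
        by_cases huK : u ∈ K
        · by_cases hvK : v ∈ K
          · exact hK.isClique (by exact_mod_cast huK) (by exact_mod_cast hvK) huv
          · have := hf1 v (Finset.mem_sdiff.2 ⟨hv, hvK⟩)
            simp only [huK, hvK, if_true, if_false] at hf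
            omega
        · by_cases hvK : v ∈ K
          · have := hf1 u (Finset.mem_sdiff.2 ⟨hu, huK⟩)
            simp only [huK, hvK, if_true, if_false] at hf
            omega
          · simp only [huK, hvK, if_false] at hf
            exact hf2 u (Finset.mem_sdiff.2 ⟨hu, huK⟩) v (Finset.mem_sdiff.2 ⟨hv, hvK⟩) huv hf
      · rw [hcard] at hf3
        have : k * (c + 1) = k * c + k := by ring
        omega

/-- **[A5a]** If every `m`-set contains a `k`-clique of `G` then `V(G)` is covered by at most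
`n/k + m` cliques: repeatedly remove a `k`-clique while at least `m` vertices remain, then use
singletons.  (Induct on a finset `U`: `Gᶜ.induce U` has a proper colouring with
`≤ |U|/k + m` colours.) -/
theorem chromatic_le_of_cliques {n : ℕ} (G : SimpleGraph (Fin n)) (k m : ℕ) (hk : 0 < k)
    (h : ∀ S : Finset (Fin n), S.card = m → ∃ K ⊆ S, G.IsNClique k K) :
    ((Gᶜ.chromaticNumber.toNat : ℕ) : ℝ) ≤ (n : ℝ) / k + m := by
  obtain ⟨c, f, hf1, hf2, hf3⟩ := A5_cover G k m hk h _ (univ : Finset (Fin n)) rfl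
  have hcol : Gᶜ.Colorable c := by
    refine ⟨SimpleGraph.Coloring.mk (fun v => (⟨f v, hf1 v (mem_univ v)⟩ : Fin c)) ?_⟩
    intro u v huv heq
    have h1 : f u = f v := by simpa using congrArg Fin.val heq
    rw [SimpleGraph.compl_adj] at huv
    exact huv.2 (hf2 u (mem_univ u) v (mem_univ v) huv.1 h1)
  have hle : Gᶜ.chromaticNumber.toNat ≤ c := by
    have h1 : Gᶜ.chromaticNumber ≤ (c : ℕ∞) := hcol.chromaticNumber_le
    exact ENat.toNat_le_of_le_natCast h1
  have hk' : (0 : ℝ) < k := by exact_mod_cast hk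
  have hf4 : (k : ℝ) * c ≤ n + k * m := by
    have : k * c ≤ n + k * m := by simpa using hf3
    exact_mod_cast this
  calc ((Gᶜ.chromaticNumber.toNat : ℕ) : ℝ) ≤ c := by exact_mod_cast hle
    _ ≤ (n : ℝ) / k + m := by
      rw [← sub_nonneg]
      have : (n : ℝ) / k + m - c = (n + k * m - k * c) / k := by
        field_simp
      rw [this]
      apply div_nonneg _ hk'.le
      linarith

/-- growth facts -/
private theorem A5_growth (A B : ℝ) :
    ∀ᶠ n : ℕ in Filter.atTop, A ≤ Real.logb 2 n ∧ B * (Real.logb 2 n) ^ 3 ≤ (n : ℝ) := by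
  have h1 : Filter.Tendsto (fun n : ℕ => Real.logb 2 (n : ℝ)) Filter.atTop Filter.atTop :=
    (Real.tendsto_logb_atTop (by norm_num)).comp tendsto_natCast_atTop_atTop
  have h2 := h1.eventually_ge_atTop A
  have hl2 : (0 : ℝ) < Real.log 2 := Real.log_pos (by norm_num)
  have h3 : (fun x : ℝ => Real.log x ^ 3) =o[Filter.atTop] id :=
    Real.isLittleO_pow_log_id_atTop
  have h3' := h3.def (c := (Real.log 2) ^ 3 / (|B| + 1)) (by positivity)
  have h3'' := tendsto_natCast_atTop_atTop.eventually h3'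
  filter_upwards [h2, h3'', Filter.eventually_ge_atTop 1] with n ha hb hn
  refine ⟨ha, ?_⟩
  have hn1 : (1 : ℝ) ≤ n := by exact_mod_cast hn
  have hlog : 0 ≤ Real.log n := Real.log_nonneg hn1
  have hb' : Real.log n ^ 3 ≤ (Real.log 2) ^ 3 / (|B| + 1) * n := by
    have h0 : (0 : ℝ) ≤ Real.log n ^ 3 := by positivity
    have h00 : (0 : ℝ) ≤ (n : ℝ) := by positivity
    have := hb
    simp only [id, Real.norm_eq_abs] at this
    rw [abs_of_nonneg h0, abs_of_nonneg h00] at this
    exact this
  have hBp : (0 : ℝ) < |B| + 1 := by positivity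
  have e1 : Real.logb 2 n = Real.log n / Real.log 2 := rfl
  rw [e1, div_pow]
  have h4 : Real.log n ^ 3 / Real.log 2 ^ 3 ≤ n / (|B| + 1) := by
    rw [div_le_div_iff₀ (by positivity) hBp]
    calc Real.log n ^ 3 * (|B| + 1) ≤ ((Real.log 2) ^ 3 / (|B| + 1) * n) * (|B| + 1) := by
          gcongr
      _ = n * Real.log 2 ^ 3 := by field_simp
  calc B * (Real.log n ^ 3 / Real.log 2 ^ 3) ≤ (|B| + 1) * (Real.log n ^ 3 / Real.log 2 ^ 3) := by
        gcongr
        linarith [le_abs_self B]
    _ ≤ (|B| + 1) * (n / (|B| + 1)) := by gcongr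
    _ = n := by field_simp

open scoped Classical in
/-- union bound -/
private theorem A5_union {n : ℕ} (k m : ℕ) (hk : 2 ≤ k) (hkm : k ≤ m) (E : ℝ)
    (hE : E = Real.exp (-(4 * (((m.choose k : ℝ) / 2 ^ (k.choose 2)) /
          (1 + ((m.choose k : ℝ) / 2 ^ (k.choose 2)) *
            ∑ l ∈ Finset.Ico 2 k, ((k : ℝ) ^ 2 / m) ^ l * 2 ^ (l.choose 2))) ^ 2 /
              (n : ℝ) ^ 2))) :
    ((univ.filter (fun G : SimpleGraph (Fin n) =>
      ¬ ∀ S : Finset (Fin n), S.card = m → ∃ K ⊆ S, G.IsNClique k K)).card : ℝ) ≤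
      (n.choose m : ℝ) * ((Fintype.card (SimpleGraph (Fin n)) : ℝ) * E) := by
  have hsub : (univ.filter (fun G : SimpleGraph (Fin n) =>
      ¬ ∀ S : Finset (Fin n), S.card = m → ∃ K ⊆ S, G.IsNClique k K)) ⊆
      (Finset.powersetCard m (univ : Finset (Fin n))).biUnion (fun S =>
        univ.filter (fun G : SimpleGraph (Fin n) => ¬ ∃ K ⊆ S, G.IsNClique k K)) := by
    intro G hG
    rw [Finset.mem_filter] at hG
    push Not at hG
    obtain ⟨-, S, hS, hS2⟩ := hG
    rw [Finset.mem_biUnion]
    refine ⟨S, by simp [Finset.mem_powersetCard, hS], ?_⟩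
    rw [Finset.mem_filter]
    refine ⟨mem_univ _, ?_⟩
    push Not
    exact hS2
  calc ((univ.filter (fun G : SimpleGraph (Fin n) =>
      ¬ ∀ S : Finset (Fin n), S.card = m → ∃ K ⊆ S, G.IsNClique k K)).card : ℝ)
      ≤ (((Finset.powersetCard m (univ : Finset (Fin n))).biUnion (fun S =>
        univ.filter (fun G : SimpleGraph (Fin n) => ¬ ∃ K ⊆ S, G.IsNClique k K))).card : ℝ) := by
        exact_mod_cast Finset.card_le_card hsub
    _ ≤ ∑ S ∈ Finset.powersetCard m (univ : Finset (Fin n)),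
        ((univ.filter (fun G : SimpleGraph (Fin n) => ¬ ∃ K ⊆ S, G.IsNClique k K)).card : ℝ) := by
        exact_mod_cast Finset.card_biUnion_le
    _ ≤ ∑ S ∈ Finset.powersetCard m (univ : Finset (Fin n)),
        ((Fintype.card (SimpleGraph (Fin n)) : ℝ) * E) := by
        apply Finset.sum_le_sum
        intro S hS
        rw [Finset.mem_powersetCard] at hS
        have h1 := no_clique_prob S k hk (by rw [hS.2]; exact hkm)
        rw [hS.2] at h1
        rw [hE]
        exact h1
    _ = (n.choose m : ℝ) * ((Fintype.card (SimpleGraph (Fin n)) : ℝ) * E) := by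
        rw [Finset.sum_const, Finset.card_powersetCard, Finset.card_univ, Fintype.card_fin,
          nsmul_eq_mul]

open scoped Classical in
/-- **[A5b]** (uses A3, A4, A5a)  Bollobás' upper bound.  Choose `δ` with `1/(2-δ) < (1+ε/2)/2`
(`δ < 1`); union bound over all `S` with `|S| = m = ⌈n/L²⌉`, `k = ⌈(2-δ)L⌉`; then
`n/k + m ≤ n/((2-δ)L) + n/L² + 1 ≤ (1+ε) n/(2L)` for large `n`. -/
theorem chromatic_upper (ε : ℝ) (hε : 0 < ε) :
    Filter.Tendsto (fun n : ℕ =>
      ((univ.filter (fun G : SimpleGraph (Fin n) =>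
        ((Gᶜ.chromaticNumber.toNat : ℕ) : ℝ) ≤ (1 + ε) * (n / (2 * Real.logb 2 n)))).card : ℝ) /
          (Fintype.card (SimpleGraph (Fin n)) : ℝ))
      Filter.atTop (nhds 1) := by
  obtain ⟨δ, hδ, hδ1, hδ2⟩ : ∃ δ : ℝ, 0 < δ ∧ δ < 1 ∧ δ ≤ ε / 4 := by
    refine ⟨min (1 / 2) (ε / 4), ?_, ?_, min_le_right _ _⟩
    · exact lt_min (by norm_num) (by linarith)
    · exact lt_of_le_of_lt (min_le_left _ _) (by norm_num)
  have hA4 := bollobas_numeric δ hδ hδ1
  refine tendsto_of_tendsto_of_tendsto_of_le_of_le'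
    (g := fun n : ℕ => 1 - ((n.choose ⌈(n : ℝ) / (Real.logb 2 n) ^ 2⌉₊ : ℕ) : ℝ) *
        Real.exp (-(4 * ((((⌈(n : ℝ) / (Real.logb 2 n) ^ 2⌉₊).choose ⌈(2 - δ) * Real.logb 2 n⌉₊ : ℝ) /
            2 ^ ((⌈(2 - δ) * Real.logb 2 n⌉₊).choose 2)) /
          (1 + (((⌈(n : ℝ) / (Real.logb 2 n) ^ 2⌉₊).choose ⌈(2 - δ) * Real.logb 2 n⌉₊ : ℝ) /
            2 ^ ((⌈(2 - δ) * Real.logb 2 n⌉₊).choose 2)) *
            ∑ l ∈ Finset.Ico 2 ⌈(2 - δ) * Real.logb 2 n⌉₊,
              ((⌈(2 - δ) * Real.logb 2 n⌉₊ : ℝ) ^ 2 / ⌈(n : ℝ) / (Real.logb 2 n) ^ 2⌉₊) ^ l *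
                2 ^ (l.choose 2))) ^ 2 / (n : ℝ) ^ 2)))
    (h := fun _ => 1) ?_ tendsto_const_nhds ?_ ?_
  · simpa using (tendsto_const_nhds (x := (1 : ℝ))).sub hA4
  · filter_upwards [A5_growth (8 / ε + 3) (max 3 (8 / ε)), Filter.eventually_ge_atTop 1]
      with n hn hn0
    obtain ⟨hL, hn3⟩ := hn
    set L : ℝ := Real.logb 2 n with hLdef
    have hεpos : 0 < 8 / ε := by positivity
    have hL3 : 3 ≤ L := by linarith
    have hLpos : 0 < L := by linarith
    have hL8 : 8 / ε ≤ L := by linarith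
    have hn3' : 3 * L ^ 3 ≤ (n : ℝ) :=
      le_trans (mul_le_mul_of_nonneg_right (le_max_left _ _) (by positivity)) hn3
    have hn8 : 8 / ε * L ^ 3 ≤ (n : ℝ) :=
      le_trans (mul_le_mul_of_nonneg_right (le_max_right _ _) (by positivity)) hn3
    have hnpos : (0 : ℝ) < n := by exact_mod_cast hn0
    set k : ℕ := ⌈(2 - δ) * L⌉₊ with hkdef
    set m : ℕ := ⌈(n : ℝ) / L ^ 2⌉₊ with hmdef
    have hδL : L ≤ (2 - δ) * L := by nlinarith
    have hk2 : 2 ≤ k := by
      have : (2 : ℝ) ≤ k := le_trans (by linarith) (Nat.le_ceil ((2 - δ) * L))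
      exact_mod_cast this
    have hklow : (2 - δ) * L ≤ k := Nat.le_ceil _
    have hkup : (k : ℝ) ≤ (2 - δ) * L + 1 := (Nat.ceil_lt_add_one (by nlinarith)).le
    have hmlow : (n : ℝ) / L ^ 2 ≤ m := Nat.le_ceil _
    have hmup : (m : ℝ) ≤ (n : ℝ) / L ^ 2 + 1 := (Nat.ceil_lt_add_one (by positivity)).le
    have hkm : k ≤ m := by
      have h1 : (3 : ℝ) * L ≤ (n : ℝ) / L ^ 2 := by
        rw [le_div_iff₀ (by positivity)]
        have h0 : 3 * L * L ^ 2 = 3 * L ^ 3 := by ring
        rw [h0]
        exact hn3'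
      have h2 : (k : ℝ) ≤ m := by nlinarith
      exact_mod_cast h2
    have hbad := A5_union (n := n) k m hk2 hkm _ rfl
    set Bad := univ.filter (fun G : SimpleGraph (Fin n) =>
      ¬ ∀ S : Finset (Fin n), S.card = m → ∃ K ⊆ S, G.IsNClique k K) with hBad
    set Good := univ.filter (fun G : SimpleGraph (Fin n) =>
        ((Gᶜ.chromaticNumber.toNat : ℕ) : ℝ) ≤ (1 + ε) * (n / (2 * L))) with hGood
    have hcov : (univ : Finset (SimpleGraph (Fin n))) ⊆ Good ∪ Bad := by
      intro G _
      rw [Finset.mem_union]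
      by_cases hG : ∀ S : Finset (Fin n), S.card = m → ∃ K ⊆ S, G.IsNClique k K
      · left
        rw [hGood, Finset.mem_filter]
        refine ⟨mem_univ _, ?_⟩
        refine (chromatic_le_of_cliques G k m (by omega) hG).trans ?_
        -- numeric
        have hkpos : (0 : ℝ) < (2 - δ) * L := by nlinarith
        have h1 : (n : ℝ) / k ≤ (1 + ε / 4) * (n / (2 * L)) := by
          calc (n : ℝ) / k ≤ n / ((2 - δ) * L) :=
                div_le_div_of_nonneg_left hnpos.le hkpos hklow
            _ ≤ (1 + δ) * (n / (2 * L)) := by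
                rw [div_le_iff₀ hkpos]
                have : (1 + δ) * ((n : ℝ) / (2 * L)) * ((2 - δ) * L) =
                    n * ((1 + δ) * (2 - δ) / 2) := by field_simp
                rw [this]
                have h5 : 1 ≤ (1 + δ) * (2 - δ) / 2 := by nlinarith
                nlinarith
            _ ≤ (1 + ε / 4) * (n / (2 * L)) := by gcongr
        have h2 : (n : ℝ) / L ^ 2 ≤ ε / 4 * (n / (2 * L)) := by
          have : ε / 4 * ((n : ℝ) / (2 * L)) = (n : ℝ) / L ^ 2 * (ε * L / 8) := by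
            field_simp
            ring
          rw [this]
          have h6 : 1 ≤ ε * L / 8 := by
            have := mul_le_mul_of_nonneg_left hL8 hε.le
            have h7 : ε * (8 / ε) = 8 := by field_simp
            rw [h7] at this
            linarith
          have h8 : 0 ≤ (n : ℝ) / L ^ 2 := by positivity
          nlinarith
        have h3 : (1 : ℝ) ≤ ε / 4 * (n / (2 * L)) := by
          have h9 : 8 / ε * L ≤ (n : ℝ) := by
            refine le_trans ?_ hn8
            have : L ≤ L ^ 3 := by nlinarith [sq_nonneg L, mul_pos hLpos hLpos]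
            exact mul_le_mul_of_nonneg_left this hεpos.le
          have : ε / 4 * ((n : ℝ) / (2 * L)) = ε * n / (8 * L) := by
            field_simp
            ring
          rw [this, le_div_iff₀ (by positivity)]
          have h10 := mul_le_mul_of_nonneg_left h9 hε.le
          have h11 : ε * (8 / ε * L) = 8 * L := by field_simp
          rw [h11] at h10
          linarith
        have h12 : 0 ≤ ε / 4 * ((n : ℝ) / (2 * L)) := by positivity
        calc (n : ℝ) / k + m ≤ (1 + ε / 4) * (n / (2 * L)) + (n / L ^ 2 + 1) := by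
              linarith
          _ ≤ (1 + ε / 4) * (n / (2 * L)) + (ε / 4 * (n / (2 * L)) + ε / 4 * (n / (2 * L))) := by
              linarith
          _ = (1 + ε) * (n / (2 * L)) - ε / 4 * (n / (2 * L)) := by ring
          _ ≤ (1 + ε) * (n / (2 * L)) := by linarith
      · right
        rw [hBad, Finset.mem_filter]
        exact ⟨mem_univ _, hG⟩
    have hcard : (Fintype.card (SimpleGraph (Fin n)) : ℝ) ≤ (Good.card : ℝ) + (Bad.card : ℝ) := by
      have h1 := (Finset.card_le_card hcov).trans (Finset.card_union_le _ _)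
      rw [Finset.card_univ] at h1
      exact_mod_cast h1
    have hNpos : (0 : ℝ) < (Fintype.card (SimpleGraph (Fin n)) : ℝ) := by
      exact_mod_cast Fintype.card_pos
    rw [le_div_iff₀ hNpos]
    rw [sub_mul, one_mul]
    linarith [hbad, hcard]
  · filter_upwards with n
    apply div_le_one_of_le₀
    · have := Finset.card_le_univ (univ.filter (fun G : SimpleGraph (Fin n) =>
        ((Gᶜ.chromaticNumber.toNat : ℕ) : ℝ) ≤ (1 + ε) * (n / (2 * Real.logb 2 n))))
      exact_mod_cast this
    · positivity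

end Pool.Agent.MP_d13902_co_B
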