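import Mathlib

set_option autoImplicit false

/-!
# Definitions for MP_d13902_co (minrank of G(n,1/2))
-/

namespace Pool.Agent.MP_d13902_co_B

open Finset

/-- (matroid) rank functions on all finsets of `α`. -/
structure IsRk {α : Type*} [DecidableEq α] (r : Finset α → ℕ) : Prop where
  empty : r ∅ = 0
  mono : ∀ A B : Finset α, A ⊆ B → r A ≤ r B
  insert_le : ∀ (A : Finset α) (x : α), r (insert x A) ≤ r A + 1
  submod : ∀ A B : Finset α, r (A ∪ B) + r (A ∩ B) ≤ r A + r B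

/-- `F` is a flat of the restriction of `r` to `V`. -/
def IsFlat {α : Type*} [DecidableEq α] (r : Finset α → ℕ) (V F : Finset α) : Prop :=
  F ⊆ V ∧ ∀ x ∈ V, x ∉ F → r F < r (insert x F)

/-- rank of the family of rows of `M` indexed by `S`. -/
noncomputable def rowRk {F : Type*} [Field F] {n : ℕ} (M : Matrix (Fin n) (Fin n) F)
    (S : Finset (Fin n)) : ℕ :=
  Module.finrank F (Submodule.span F ((fun i => M i) '' (S : Set (Fin n))))

/-- closed neighbourhood of `v` inside `B`. -/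
noncomputable def nb {n : ℕ} (H : SimpleGraph (Fin n)) (B : Finset (Fin n)) (v : Fin n) :
    Finset (Fin n) := by
  classical exact B.filter (fun w => w = v ∨ H.Adj v w)

/-- sum over `X` of the sizes of the closed neighbourhoods inside `B`. -/
noncomputable def Dsum {n : ℕ} (H : SimpleGraph (Fin n)) (B X : Finset (Fin n)) : ℕ :=
  ∑ v ∈ X, (nb H B v).card

/-- the matrix `M` with all entries outside `B × B` replaced by `0`. -/
noncomputable def res {F : Type*} [Field F] {n : ℕ} (M : Matrix (Fin n) (Fin n) F)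
    (B : Finset (Fin n)) : Matrix (Fin n) (Fin n) F :=
  fun i j => if i ∈ B ∧ j ∈ B then M i j else 0

/-- the support graph of a matrix. -/
def suppG {F : Type*} [Field F] {n : ℕ} (M : Matrix (Fin n) (Fin n) F) : SimpleGraph (Fin n) where
  Adj i j := i ≠ j ∧ (M i j ≠ 0 ∨ M j i ≠ 0)
  symm := ⟨fun _ _ h => ⟨h.1.symm, h.2.symm⟩⟩
  loopless := ⟨fun _ h => h.1 rfl⟩

/-- The certificate produced by a low-rank representation; this is what is counted. -/
structure Cert (F : Type*) [Field F] {n : ℕ} (ρ σ β : ℝ) (H : SimpleGraph (Fin n))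
    (V Ir Ic : Finset (Fin n)) : Prop where
  hV : β * n ≤ V.card
  hne : V.Nonempty
  hin : ∀ u v, H.Adj u v → u ∈ V ∧ v ∈ V
  hIr : Ir ⊆ V
  hIc : Ic ⊆ V
  hcard : Ir.card = Ic.card
  hk : (Ir.card : ℝ) ≤ ρ * V.card
  hD : (V.card : ℝ) ≤ ρ * Dsum H V V
  hJ : (Dsum H V (Ir ∪ Ic) : ℝ) ≤ (1 + σ) * ρ * Dsum H V V
  hK : (Dsum H (Ir ∪ Ic) (Ir ∪ Ic) : ℝ) ≤ σ * ρ * Dsum H V V
  hM : ∃ M : Matrix (Fin n) (Fin n) F,
    (∀ i j, M i j ≠ 0 → i ∈ V ∧ j ∈ V ∧ (i = j ∨ H.Adj i j)) ∧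
    (∀ i j, H.Adj i j → M i j ≠ 0 ∨ M j i ≠ 0) ∧
    M.rank = Ir.card ∧ rowRk M Ir = Ir.card ∧ rowRk M.transpose Ic = Ic.card

/-- `ρ₁ = (1 - ε/2) / (2 log₂ n)`. -/
noncomputable def rho (ε : ℝ) (n : ℕ) : ℝ := (1 - ε / 2) / (2 * Real.logb 2 n)

end Pool.Agent.MP_d13902_co_B
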